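import Pool.Agent.V11111.BE.Defs

open Filter Topology

namespace Pool.Agent.V11111.BF

/-- Proportion of the digit `k` among the first `n` digits of `ε`. -/
noncomputable def prop (ε : ℕ → ℕ) (k n : ℕ) : ℝ :=
  (((Finset.range n).filter fun i => ε i = k).card : ℝ) / n

/-- The set `E_β(x; p̄, p_)` of all expansions of `x` in base `β` over the digits
`{0, …, ⌊β⌋}` for which the upper frequency (limsup) of each digit `k` is `pu k` and the lower
frequency (liminf) of each digit `k` is `pl k`. -/
def ESet (β x : ℝ) (pu pl : Fin (⌊β⌋₊ + 1) → ℝ) : Set (ℕ → ℕ) :=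
  {ε | BE.IsExpansion β x ε ∧ ∀ k : Fin (⌊β⌋₊ + 1),
    limsup (fun n => prop ε k n) atTop = pu k ∧ liminf (fun n => prop ε k n) atTop = pl k}

end Pool.Agent.V11111.BF
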