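import Pool.Agent.V11111.BF.Vit
import Pool.Agent.V11111.BE.Til

open MeasureTheory Set Filter Topology
open scoped ENNReal NNReal

namespace Pool.Agent.V11111.BF

open Pool.Agent.V11111.BE

noncomputable section

variable {β c : ℝ} {m : ℕ} {pu pl : ℕ → ℝ}

/-- expansions with prescribed frequencies -/
def EE (β : ℝ) (m : ℕ) (pu pl : ℕ → ℝ) (x : ℝ) : Set (ℕ → ℕ) :=
  {ε | (∀ i, ε i ≤ m) ∧ HasSum (fun i => (ε i : ℝ) / β ^ (i + 1)) x ∧ Fr m pu pl ε}

/-- putting a digit in front -/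
def cns (j : ℕ) (ε : ℕ → ℕ) : ℕ → ℕ
  | 0 => j
  | i + 1 => ε i

lemma cnt_cns (j : ℕ) (ε : ℕ → ℕ) (k n : ℕ) :
    cnt (cns j ε) k (n + 1) = cnt ε k n + if j = k then 1 else 0 := by
  rw [cnt_eq_count, List.range_succ_eq_map, List.map_cons, List.map_map, List.count_cons,
    cnt_eq_count]
  have h1 : List.map (cns j ε ∘ Nat.succ) (List.range n) = List.map ε (List.range n) := by
    apply List.map_congr_left
    intro i _
    rfl
  rw [h1]
  congr 1
  show (if (j == k) = true then 1 else 0) = _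
  by_cases h : j = k
  · simp [h]
  · simp [h]

lemma prop_cns (j : ℕ) (ε : ℕ → ℕ) (k n : ℕ) :
    |prop (cns j ε) k n - prop ε k n| ≤ 1 / n := by
  rcases n with _ | n
  · simp [prop]
  · rw [prop_eq, prop_eq, cnt_cns, cnt_succ, ← sub_div, abs_div, Nat.abs_cast]
    apply div_le_div_of_nonneg_right _ (Nat.cast_nonneg _)
    push_cast
    split_ifs <;> norm_num

section Close

variable {a b : ℕ → ℝ} (ha0 : ∀ n, 0 ≤ a n) (ha1 : ∀ n, a n ≤ 1) (hb0 : ∀ n, 0 ≤ b n)
  (hb1 : ∀ n, b n ≤ 1) (hab : ∀ n : ℕ, |b n - a n| ≤ 1 / n)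
include ha0 ha1 hb0 hb1 hab

lemma ls_close {L : ℝ} (h : limsup a atTop = L) : limsup b atTop = L := by
  have hs : ∀ δ > 0, ∀ᶠ n : ℕ in atTop, (1 : ℝ) / n < δ := fun δ hδ =>
    tendsto_one_div_atTop_nhds_zero_nat.eventually (gt_mem_nhds hδ)
  apply ls_eq hb0 hb1
  · intro δ hδ
    filter_upwards [hs (δ / 2) (by linarith), ls_lt ha0 ha1 h (by linarith : 0 < δ / 2)]
      with n h1 h2
    have := (abs_le.1 (hab n)).2
    linarith
  · intro δ hδ
    refine ((ls_fr ha0 ha1 h (by linarith : 0 < δ / 2)).and_eventually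
      (hs (δ / 2) (by linarith))).mono ?_
    rintro n ⟨h1, h2⟩
    have := (abs_le.1 (hab n)).1
    linarith

lemma li_close {L : ℝ} (h : liminf a atTop = L) : liminf b atTop = L := by
  have hs : ∀ δ > 0, ∀ᶠ n : ℕ in atTop, (1 : ℝ) / n < δ := fun δ hδ =>
    tendsto_one_div_atTop_nhds_zero_nat.eventually (gt_mem_nhds hδ)
  apply li_eq hb0 hb1
  · intro δ hδ
    filter_upwards [hs (δ / 2) (by linarith), li_lt ha0 ha1 h (by linarith : 0 < δ / 2)]
      with n h1 h2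
    have := (abs_le.1 (hab n)).1
    linarith
  · intro δ hδ
    refine ((li_fr ha0 ha1 h (by linarith : 0 < δ / 2)).and_eventually
      (hs (δ / 2) (by linarith))).mono ?_
    rintro n ⟨h1, h2⟩
    have := (abs_le.1 (hab n)).2
    linarith

end Close

lemma Fr_cns (j : ℕ) {ε : ℕ → ℕ} (h : Fr m pu pl ε) : Fr m pu pl (cns j ε) := by
  intro k hk
  exact ⟨ls_close (prop_nn ε k) (prop_le ε k) (prop_nn _ k) (prop_le _ k) (prop_cns j ε k)
      (h k hk).1,
    li_close (prop_nn ε k) (prop_le ε k) (prop_nn _ k) (prop_le _ k) (prop_cns j ε k)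
      (h k hk).2⟩

lemma EE_cns (hβ : 0 < β) {j : ℕ} (hj : j ≤ m) {y : ℝ} {ε : ℕ → ℕ} (h : ε ∈ EE β m pu pl y) :
    cns j ε ∈ EE β m pu pl ((j + y) / β) := by
  obtain ⟨h1, h2, h3⟩ := h
  refine ⟨?_, ?_, Fr_cns j h3⟩
  · intro i
    rcases i with _ | i
    · exact hj
    · exact h1 i
  · rw [← hasSum_nat_add_iff' 1]
    have h4 := h2.div_const β
    have e1 : (fun n : ℕ => (cns j ε (n + 1) : ℝ) / β ^ (n + 1 + 1))
        = fun n : ℕ => (ε n : ℝ) / β ^ (n + 1) / β := by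
      funext n
      show (ε n : ℝ) / β ^ (n + 1 + 1) = _
      rw [div_div, ← pow_succ]
    have e2 : (j + y) / β - ∑ i ∈ Finset.range 1, (cns j ε i : ℝ) / β ^ (i + 1) = y / β := by
      rw [Finset.sum_range_one]
      show (j + y) / β - (j : ℝ) / β ^ (0 + 1) = _
      rw [zero_add, pow_one]
      ring
    rw [e1, e2]
    exact h4

lemma null_pre (hβ : 0 < β) {N : Set ℝ} (hN : volume N = 0) (i : ℕ) :
    volume ((fun x : ℝ => β * x - i) ⁻¹' N) = 0 := by
  have e : (fun x : ℝ => β * x - i) = fun x => β * (x - i / β) := by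
    funext x
    field_simp
  rw [e]
  apply Measure.preimage_null_of_map_null (by fun_prop)
  rw [map_affine hβ, Measure.smul_apply, hN, smul_zero]

lemma wt_vol (hβ : 0 < β) (hc0 : 0 < c) (w : List ℕ) :
    wt β w = ENNReal.ofReal c⁻¹ * volume (tile β c w) := by
  rw [vol_tile hβ, ← ENNReal.ofReal_mul (by positivity)]
  unfold wt
  congr 1
  field_simp

lemma tsum_ind (T B : Set (List ℕ)) (g : List ℕ → ℝ≥0∞) :
    ∑' w : T, B.indicator g w = ∑' w : {w | w ∈ T ∧ w ∈ B}, g w := by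
  rw [tsum_subtype T (B.indicator g), tsum_subtype {w | w ∈ T ∧ w ∈ B} g, indicator_indicator]
  rfl

lemma Wp_dig {U : Set ℝ} {Cl : ℝ → Set (ℕ → ℕ)} {L : ℕ} {w : List ℕ}
    (hCl : ∀ x, ∀ ε ∈ Cl x, ∀ i, ε i ≤ m) (h : Wp U Cl L w) : ∀ k ∈ w, k ≤ m := by
  obtain ⟨x, -, ε, hε, N, -, rfl⟩ := h
  intro k hk
  unfold pf at hk
  obtain ⟨i, -, rfl⟩ := List.mem_map.1 hk
  exact hCl x ε hε i

lemma Wp_len {U : Set ℝ} {Cl : ℝ → Set (ℕ → ℕ)} {L : ℕ} {w : List ℕ} (h : Wp U Cl L w) :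
    L ≤ w.length := by
  obtain ⟨x, -, ε, hε, N, hN, rfl⟩ := h
  rw [pf_length]
  exact hN

lemma Wp_head {U : Set ℝ} {E : ℝ → Set (ℕ → ℕ)} {i L : ℕ} {w : List ℕ}
    (h : Wp U (fun x => {ε | ε ∈ E x ∧ ε 0 = i}) (L + 1) w) : w.head? = some i := by
  obtain ⟨x, -, ε, ⟨-, hε⟩, N, hN, rfl⟩ := h
  obtain ⟨N, rfl⟩ := Nat.exists_eq_add_of_le hN
  unfold pf
  rw [show L + 1 + N = (L + N) + 1 by ring, List.range_succ_eq_map, List.map_cons, hε]
  rfl

/-- combining three tilings into a stage -/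
def mk3 (hβ : 0 < β) (hc0 : 0 < c) {Un Us : Set ℝ} (hdisj : Disjoint Un Us) {un us : ℝ}
    (hun : 0 ≤ un) (hus : 0 ≤ us) (htot : un + us = c)
    (Tn T0 T1 : Set (List ℕ))
    (dn : ∀ w ∈ Tn, ∀ k ∈ w, k ≤ m) (d0 : ∀ w ∈ T0, ∀ k ∈ w, k ≤ m)
    (d1 : ∀ w ∈ T1, ∀ k ∈ w, k ≤ m)
    (nn : ∀ w ∈ Tn, w ≠ []) (n0 : ∀ w ∈ T0, w.head? = some 0) (n1 : ∀ w ∈ T1, w.head? = some 1)
    (sn : ∀ w ∈ Tn, tile β c w ⊆ Un) (s0 : ∀ w ∈ T0, tile β c w ⊆ Us)
    (s1 : ∀ w ∈ T1, tile β c w ⊆ Us)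
    (pn : ∀ w ∈ Tn, ∀ w' ∈ Tn, w ≠ w' → Disjoint (tile β c w) (tile β c w'))
    (p0 : ∀ w ∈ T0, ∀ w' ∈ T0, w ≠ w' → Disjoint (tile β c w) (tile β c w'))
    (p1 : ∀ w ∈ T1, ∀ w' ∈ T1, w ≠ w' → Disjoint (tile β c w) (tile β c w'))
    (vn : ∑' w : Tn, volume (tile β c (w : List ℕ)) = ENNReal.ofReal un)
    (v0 : ∑' w : T0, volume (tile β c (w : List ℕ)) = ENNReal.ofReal us)
    (v1 : ∑' w : T1, volume (tile β c (w : List ℕ)) = ENNReal.ofReal us)
    (w0 : T0) : Stg β c m where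
  A := Tn ⊕ (T0 ⊕ T1)
  cA := inferInstance
  a0 := Sum.inr (Sum.inl w0)
  w := Sum.elim Subtype.val (Sum.elim Subtype.val Subtype.val)
  s := Sum.elim (fun _ => none) (Sum.elim (fun _ => some false) (fun _ => some true))
  dig_le := by
    rintro (a | a | a)
    · exact dn _ a.2
    · exact d0 _ a.2
    · exact d1 _ a.2
  ne := by
    rintro (a | a | a)
    · exact nn _ a.2
    · intro h
      have h1 := n0 _ a.2
      have h2 : (a : List ℕ) = [] := h
      rw [h2] at h1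
      exact absurd h1 (by simp)
    · intro h
      have h1 := n1 _ a.2
      have h2 : (a : List ℕ) = [] := h
      rw [h2] at h1
      exact absurd h1 (by simp)
  dis := by
    rintro (a | a | a) (a' | a' | a') hne
    · exact Or.inl (pn _ a.2 _ a'.2 fun e => hne (by rw [Subtype.ext e]))
    · exact Or.inl (hdisj.mono (sn _ a.2) (s0 _ a'.2))
    · exact Or.inl (hdisj.mono (sn _ a.2) (s1 _ a'.2))
    · exact Or.inl (hdisj.symm.mono (s0 _ a.2) (sn _ a'.2))
    · exact Or.inl (p0 _ a.2 _ a'.2 fun e => hne (by rw [Subtype.ext e]))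
    · refine Or.inr ⟨?_, false, rfl, rfl⟩
      show (a : List ℕ).head? ≠ (a' : List ℕ).head?
      rw [n0 _ a.2, n1 _ a'.2]
      simp
    · exact Or.inl (hdisj.symm.mono (s1 _ a.2) (sn _ a'.2))
    · refine Or.inr ⟨?_, true, rfl, rfl⟩
      show (a : List ℕ).head? ≠ (a' : List ℕ).head?
      rw [n1 _ a.2, n0 _ a'.2]
      simp
    · exact Or.inl (p1 _ a.2 _ a'.2 fun e => hne (by rw [Subtype.ext e]))
  tot := by
    rw [tsum_sum_type, tsum_sum_type]
    show ∑' a : Tn, wt β (a : List ℕ) * 1 + (∑' a : T0, wt β (a : List ℕ) * ENNReal.ofReal (1 / 2)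
      + ∑' a : T1, wt β (a : List ℕ) * ENNReal.ofReal (1 / 2)) = 1
    simp only [wt_vol hβ hc0, mul_one]
    rw [ENNReal.tsum_mul_right, ENNReal.tsum_mul_right, ENNReal.tsum_mul_left,
      ENNReal.tsum_mul_left, ENNReal.tsum_mul_left, vn, v0, v1, ← mul_add,
      ← ENNReal.ofReal_add (by norm_num) (by norm_num)]
    have h1 : ENNReal.ofReal (1 / 2 + 1 / 2) = 1 := by norm_num
    rw [h1, mul_one, ← mul_add, ← ENNReal.ofReal_add hun hus, htot,
      ← ENNReal.ofReal_mul (by positivity), inv_mul_cancel₀ hc0.ne', ENNReal.ofReal_one]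

theorem exists_stage (hβ : 1 < β) (hc : β * c = c + m) (hc1 : 1 < c) (hm : 1 ≤ m)
    (hE : volume (Icc 0 c \ {x | (EE β m pu pl x).Nonempty}) = 0) :
    ∃ q : ℝ≥0∞, q < 1 ∧ ∀ δ : ℝ, 0 < δ → ∀ η : ℝ≥0∞, η ≠ 0 → ∃ K : ℕ, ∀ n L : ℕ,
      ∃ S : Stg β c m, (∀ a, L ≤ (S.w a).length) ∧ PP c (S.X ⁻¹' {a | S.s a = none}) ≤ q ∧
        ((K : ℝ) ≤ δ * n → PP c (S.X ⁻¹' {a | ¬ GW m pu pl δ n (S.w a)}) ≤ η) := by
  have hβ0 : 0 < β := by linarith
  have hc0 : 0 < c := by linarith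
  set a : ℝ := (c + 2) / (3 * β) with ha
  set b : ℝ := (2 * c + 1) / (3 * β) with hb
  have hab : a < b := by
    rw [ha, hb]
    apply div_lt_div_of_pos_right _ (by positivity)
    linarith
  have h1a : 1 / β < a := by
    rw [ha, div_lt_div_iff₀ hβ0 (by positivity)]
    nlinarith
  have hbc : b < c / β := by
    rw [hb, div_lt_div_iff₀ (by positivity) hβ0]
    nlinarith
  have hcβ : c / β < c := div_lt_self hc0 hβ
  have ha0 : 0 < a := lt_trans (by positivity) h1a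
  have hbc' : b < c := hbc.trans hcβ
  set Un : Set ℝ := Ioo 0 a ∪ Ioo b c with hUn
  set Us : Set ℝ := Ioo a b with hUs
  have hUno : IsOpen Un := isOpen_Ioo.union isOpen_Ioo
  have hdisj : Disjoint Un Us := by
    rw [Set.disjoint_left]
    rintro x (hx | hx) hx'
    · linarith [hx.2, hx'.1]
    · linarith [hx.1, hx'.2]
  have hvn : volume Un = ENNReal.ofReal (a + (c - b)) := by
    rw [hUn, measure_union _ measurableSet_Ioo, Real.volume_Ioo, Real.volume_Ioo, sub_zero,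
      ← ENNReal.ofReal_add ha0.le (by linarith)]
    rw [Set.disjoint_left]
    intro x hx hx'
    linarith [hx.2, hx'.1]
  have hvs : volume Us = ENNReal.ofReal (b - a) := by rw [hUs, Real.volume_Ioo]
  refine ⟨ENNReal.ofReal ((a + (c - b)) / c), ?_, ?_⟩
  · rw [ENNReal.ofReal_lt_one, div_lt_one hc0]
    linarith
  intro δ hδ η hη
  -- the three classes
  set E := EE β m pu pl with hEdef
  have hCl : ∀ x, ∀ ε ∈ E x, (∀ i, ε i ≤ m) ∧
      HasSum (fun i => (ε i : ℝ) / β ^ (i + 1)) x ∧ Fr m pu pl ε := fun x ε h => h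
  have hnn : volume (Un \ {x | (E x).Nonempty}) = 0 := by
    refine measure_mono_null ?_ hE
    rintro x ⟨hx | hx, hx2⟩
    · exact ⟨⟨hx.1.le, by linarith [hx.2]⟩, hx2⟩
    · exact ⟨⟨by linarith [hx.1], hx.2.le⟩, hx2⟩
  have hni : ∀ i : ℕ, i ≤ 1 → volume (Us \ {x | ({ε | ε ∈ E x ∧ ε 0 = i} : Set (ℕ → ℕ)).Nonempty})
      = 0 := by
    intro i hi
    refine measure_mono_null ?_ (null_pre hβ0 hE i)
    rintro x ⟨hx, hx2⟩
    have hi0 : (0 : ℝ) ≤ i := Nat.cast_nonneg i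
    have hi1 : (i : ℝ) ≤ 1 := by exact_mod_cast hi
    have h3 : 1 < β * x := by
      have h4 : 1 / β < x := h1a.trans hx.1
      rw [div_lt_iff₀ hβ0] at h4
      linarith
    have h4 : β * x < c := by
      have h5 : x < c / β := hx.2.trans hbc
      rw [lt_div_iff₀ hβ0] at h5
      linarith
    refine ⟨⟨by linarith, by linarith⟩, ?_⟩
    rintro ⟨ε, hε⟩
    apply hx2
    have h5 := EE_cns hβ0 (hi.trans hm) hε
    have h6 : ((i : ℝ) + (β * x - i)) / β = x := by field_simp; ring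
    rw [h6] at h5
    exact ⟨cns i ε, h5, rfl⟩
  set η' : ℝ≥0∞ := ENNReal.ofReal c * (η / 3) with hη'
  have hη'0 : η' ≠ 0 := by
    rw [hη']
    apply mul_ne_zero
    · rw [Ne, ENNReal.ofReal_eq_zero, not_le]; exact hc0
    · exact ENNReal.div_ne_zero.2 ⟨hη, by norm_num⟩
  have hη'' : ENNReal.ofReal c⁻¹ * η' = η / 3 := by
    rw [hη', ← mul_assoc, ← ENNReal.ofReal_mul (by positivity), inv_mul_cancel₀ hc0.ne',
      ENNReal.ofReal_one, one_mul]
  obtain ⟨Kn, hKn⟩ := stageU hβ hc0 hc hUno (by rw [hvn]; exact ENNReal.ofReal_ne_top) E hCl hnn hδ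
    hη'0
  obtain ⟨K0, hK0⟩ := stageU hβ hc0 hc (isOpen_Ioo (a := a) (b := b))
    (by rw [Real.volume_Ioo]; exact ENNReal.ofReal_ne_top)
    (fun x => {ε | ε ∈ E x ∧ ε 0 = 0}) (fun x ε h => hCl x ε h.1) (hni 0 (by norm_num)) hδ hη'0
  obtain ⟨K1, hK1⟩ := stageU hβ hc0 hc (isOpen_Ioo (a := a) (b := b))
    (by rw [Real.volume_Ioo]; exact ENNReal.ofReal_ne_top)
    (fun x => {ε | ε ∈ E x ∧ ε 0 = 1}) (fun x ε h => hCl x ε h.1) (hni 1 le_rfl) hδ hη'0
  refine ⟨max Kn (max K0 K1), fun n L => ?_⟩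
  obtain ⟨Tn, an, pn, vn, bn⟩ := hKn n (L + 1)
  obtain ⟨T0, a0, p0, v0, b0⟩ := hK0 n (L + 1)
  obtain ⟨T1, a1, p1, v1, b1⟩ := hK1 n (L + 1)
  rw [hvn] at vn
  rw [Real.volume_Ioo] at v0 v1
  have hT0 : Nonempty T0 := by
    by_contra h
    rw [not_nonempty_iff] at h
    rw [tsum_empty] at v0
    have : b - a ≤ 0 := ENNReal.ofReal_eq_zero.1 v0.symm
    linarith
  obtain ⟨w0⟩ := hT0
  have len_pos : ∀ w : List ℕ, L + 1 ≤ w.length → w ≠ [] := by
    rintro w h rfl
    simp at h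
  set S : Stg β c m := mk3 hβ0 hc0 hdisj (un := a + (c - b)) (us := b - a) (by linarith)
    (by linarith) (by ring) Tn T0 T1
    (fun w hw => Wp_dig (fun x ε h => (hCl x ε h).1) (an w hw).1)
    (fun w hw => Wp_dig (fun x ε h => (hCl x ε h.1).1) (a0 w hw).1)
    (fun w hw => Wp_dig (fun x ε h => (hCl x ε h.1).1) (a1 w hw).1)
    (fun w hw => len_pos w (Wp_len (an w hw).1))
    (fun w hw => Wp_head (a0 w hw).1) (fun w hw => Wp_head (a1 w hw).1)
    (fun w hw => (an w hw).2) (fun w hw => (a0 w hw).2) (fun w hw => (a1 w hw).2)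
    pn p0 p1 vn v0 v1 w0 with hS
  refine ⟨S, ?_, ?_, ?_⟩
  · rintro (w | w | w)
    · exact (Nat.le_succ L).trans (Wp_len (an _ w.2).1)
    · exact (Nat.le_succ L).trans (Wp_len (a0 _ w.2).1)
    · exact (Nat.le_succ L).trans (Wp_len (a1 _ w.2).1)
  · rw [S.P_set hβ0 hc0 hc, tsum_subtype {a | S.s a = none} (fun a => pr β (S.w a) (S.s a))]
    have e : ∑' a, ({a | S.s a = none} : Set S.A).indicator (fun a => pr β (S.w a) (S.s a)) a
        = ∑' w : Tn, wt β (w : List ℕ) * 1 + (∑' w : T0, 0 + ∑' w : T1, 0) := by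
      refine (tsum_sum_type (ι := Tn) (κ := T0 ⊕ T1) _).trans ?_
      congr 1
      · apply tsum_congr
        intro w
        rw [indicator_of_mem]
        · rfl
        · rfl
      · refine (tsum_sum_type (ι := T0) (κ := T1) _).trans ?_
        congr 1
        · apply tsum_congr
          intro w
          rw [indicator_of_notMem]
          intro h
          have h2 : (some false : Option Bool) = none := h
          simp at h2
        · apply tsum_congr
          intro w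
          rw [indicator_of_notMem]
          intro h
          have h2 : (some true : Option Bool) = none := h
          simp at h2
    rw [e]
    simp only [wt_vol hβ0 hc0, mul_one, tsum_zero, add_zero]
    rw [ENNReal.tsum_mul_left, vn, ← ENNReal.ofReal_mul (by positivity)]
    apply le_of_eq
    congr 1
    field_simp
  · intro hKn'
    have k1 : (Kn : ℝ) ≤ δ * n := le_trans (by exact_mod_cast le_max_left _ _) hKn'
    have k2 : (K0 : ℝ) ≤ δ * n :=
      le_trans (by exact_mod_cast (le_max_left K0 K1).trans (le_max_right _ _)) hKn'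
    have k3 : (K1 : ℝ) ≤ δ * n :=
      le_trans (by exact_mod_cast (le_max_right K0 K1).trans (le_max_right _ _)) hKn'
    set Bd : Set (List ℕ) := {w | ¬ GW m pu pl δ n w} with hBd
    rw [S.P_set hβ0 hc0 hc, tsum_subtype {a | ¬ GW m pu pl δ n (S.w a)}
      (fun a => pr β (S.w a) (S.s a))]
    have part : ∀ T : Set (List ℕ), (∑' w : {w | w ∈ T ∧ ¬ GW m pu pl δ n w},
        volume (tile β c (w : List ℕ)) ≤ η') → ∀ (s : Option Bool) (g : T → ℝ≥0∞),
        (∀ w : T, g w ≤ ENNReal.ofReal c⁻¹ * Bd.indicator (fun w => volume (tile β c w)) w) →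
        ∑' w : T, g w ≤ η / 3 := by
      intro T hT s g hg
      refine (ENNReal.tsum_le_tsum hg).trans ?_
      rw [ENNReal.tsum_mul_left, tsum_ind T Bd, ← hη'']
      exact mul_le_mul_right hT _
    have hq : ∀ s : Option Bool, qw s ≤ 1 := by
      intro s
      rcases s with _ | _
      · exact le_rfl
      · show ENNReal.ofReal (1 / 2) ≤ 1
        rw [ENNReal.ofReal_le_one]; norm_num
    have hpr : ∀ (w : List ℕ) (s : Option Bool) (P : Prop) [Decidable P], (P → w ∈ Bd) →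
        (if P then pr β w s else 0) ≤
          ENNReal.ofReal c⁻¹ * Bd.indicator (fun w => volume (tile β c w)) w := by
      intro w s P _ hP
      by_cases h : P
      · rw [if_pos h, indicator_of_mem (hP h), ← wt_vol hβ0 hc0]
        show wt β w * qw s ≤ wt β w
        calc wt β w * qw s ≤ wt β w * 1 := mul_le_mul_right (hq s) _
          _ = wt β w := mul_one _
      · rw [if_neg h]; exact bot_le
    classical
    have e : ∀ a : S.A, ({a | ¬ GW m pu pl δ n (S.w a)} : Set S.A).indicator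
        (fun a => pr β (S.w a) (S.s a)) a
        = if ¬ GW m pu pl δ n (S.w a) then pr β (S.w a) (S.s a) else 0 := by
      intro a
      rw [indicator_apply]
      rfl
    simp only [e]
    refine le_trans (le_of_eq ((tsum_sum_type (ι := Tn) (κ := T0 ⊕ T1) _).trans
      (congrArg₂ _ rfl (tsum_sum_type (ι := T0) (κ := T1) _)))) ?_
    have f1 := part Tn (bn k1) none (fun w : Tn => if ¬ GW m pu pl δ n (w : List ℕ) then
      pr β (w : List ℕ) none else 0) (fun w => hpr w none _ fun h => h)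
    have f2 := part T0 (b0 k2) none (fun w : T0 => if ¬ GW m pu pl δ n (w : List ℕ) then
      pr β (w : List ℕ) (some false) else 0) (fun w => hpr w (some false) _ fun h => h)
    have f3 := part T1 (b1 k3) none (fun w : T1 => if ¬ GW m pu pl δ n (w : List ℕ) then
      pr β (w : List ℕ) (some true) else 0) (fun w => hpr w (some true) _ fun h => h)
    calc _ ≤ η / 3 + (η / 3 + η / 3) := add_le_add f1 (add_le_add f2 f3)
      _ = η := by rw [← add_assoc]; exact ENNReal.add_thirds η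

end

end Pool.Agent.V11111.BF
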