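import Pool.Agent.V11111.BF.Proc
import Pool.Agent.V11111.BF.Stage

open MeasureTheory Set Filter Topology
open scoped ENNReal NNReal

namespace Pool.Agent.V11111.BF

open Pool.Agent.V11111.BE

noncomputable section

variable {β c : ℝ} {m : ℕ} {pu pl : ℕ → ℝ}

lemma good_EE (hβ : 1 < β) (hc : β * c = c + m) (Sg : ℕ → ℕ → Stg β c m)
    (hpu : ∀ k ≤ m, pu k ≤ 1) (hpl : ∀ k ≤ m, 0 ≤ pl k) {x y : ℝ}
    (h : GoodPt Sg (fun i n => {a | ¬ GW m pu pl ((1 / 2) ^ i) n ((Sg i n).w a)}) (x, y)) :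
    dig (Wd Sg (x, y)) ∈ EE β m pu pl x := by
  have hβ0 : 0 < β := by linarith
  refine ⟨?_, ?_, ?_⟩
  · exact dig_le (Wd_ne Sg _) (Wd_dig Sg _)
  · exact hasSum_of_blocks hβ (Wd_ne Sg _) (Wd_dig Sg _)
      (fun i => good_mem Sg hβ0 hc h i) (fun i => value Sg hβ0 (x, y) i)
  · apply concat_Fr (Wd_ne Sg _) hpu hpl
    filter_upwards [h.bad] with i hi
    rw [pre_len]
    by_contra h2
    exact hi ⟨mem_univ _, h2⟩

theorem core (hβ : 1 < β) (hc : β * c = c + m) (hc1 : 1 < c) (hm : 1 ≤ m)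
    (hE : volume (Icc 0 c \ {x | (EE β m pu pl x).Nonempty}) = 0) :
    ∀ᵐ x ∂(volume.restrict (Icc 0 c)), Cardinal.mk (EE β m pu pl x) = Cardinal.continuum := by
  have hβ0 : 0 < β := by linarith
  have hc0 : 0 < c := by linarith
  -- the prescribed frequencies are between zero and one
  have hex : ∃ x, (EE β m pu pl x).Nonempty := by
    by_contra h
    push Not at h
    have h1 : {x | (EE β m pu pl x).Nonempty} = ∅ := by
      rw [eq_empty_iff_forall_notMem]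
      intro x hx
      exact hx.ne_empty (h x)
    rw [h1, diff_empty, Real.volume_Icc, sub_zero, ENNReal.ofReal_eq_zero] at hE
    linarith
  obtain ⟨x0, ε0, -, -, hF0⟩ := hex
  have hpu : ∀ k ≤ m, pu k ≤ 1 := fun k hk => ls_le_one (prop_nn ε0 k) (prop_le ε0 k) (hF0 k hk).1
  have hpl : ∀ k ≤ m, 0 ≤ pl k := fun k hk => li_nn (prop_nn ε0 k) (prop_le ε0 k) (hF0 k hk).2
  obtain ⟨q, hq, hst⟩ := exists_stage (pu := pu) (pl := pl) hβ hc hc1 hm hE
  have h1 : ∀ i : ℕ, ∃ K : ℕ, ∀ n L : ℕ, ∃ S : Stg β c m, (∀ a, L ≤ (S.w a).length) ∧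
      PP c (S.X ⁻¹' {a | S.s a = none}) ≤ q ∧ ((K : ℝ) ≤ (1 / 2) ^ i * n →
        PP c (S.X ⁻¹' {a | ¬ GW m pu pl ((1 / 2) ^ i) n (S.w a)}) ≤ ENNReal.ofReal ((1 / 2) ^ i)) := by
    intro i
    apply hst _ (by positivity)
    rw [Ne, ENNReal.ofReal_eq_zero, not_le]
    positivity
  choose K hK using h1
  set thr : ℕ → ℕ := fun i => K i * 2 ^ i with hthr
  choose Sg' hS1 hS2 hS3 using hK
  set Sg : ℕ → ℕ → Stg β c m := fun i n => Sg' i n (thr (i + 1)) with hSg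
  set B : ∀ i n, Set (Sg i n).A := fun i n => {a | ¬ GW m pu pl ((1 / 2) ^ i) n ((Sg i n).w a)}
    with hB
  have hg1 := ae_all Sg hβ0 hc0 hc
  have hg2 := ae_bad Sg hβ0 hc0 hc B thr (by
    intro i ω hi
    obtain ⟨j, rfl⟩ := Nat.exists_eq_add_of_le hi
    rw [add_comm 1 j]
    have h2 : (Ps Sg (j + 1) ω).2 = (Ps Sg j ω).2 +
      ((Sg j (Ps Sg j ω).2).w ((Sg j (Ps Sg j ω).2).X (Ps Sg j ω).1)).length := rfl
    have h3 : thr (j + 1) ≤
      ((Sg j (Ps Sg j ω).2).w ((Sg j (Ps Sg j ω).2).X (Ps Sg j ω).1)).length := hS1 _ _ _ _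
    omega) (by
    intro i n hn
    apply hS3
    have h2 : ((K i * 2 ^ i : ℕ) : ℝ) ≤ n := by exact_mod_cast hn
    push_cast at h2
    have h3 : (K i : ℝ) = (1 / 2) ^ i * (K i * 2 ^ i) := by
      rw [one_div, inv_pow]
      field_simp
    rw [h3]
    exact mul_le_mul_of_nonneg_left h2 (by positivity))
  have hg3 := ae_split Sg hβ0 hc0 hc q hq (fun i n => hS2 _ _ _)
  have h0 : ∀ᵐ ω ∂((mu1 c).prod mu2), GoodPt Sg B ω := by
    filter_upwards [hg1, hg2, hg3] with ω a1 a2 a3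
    exact ⟨a1, a2, a3⟩
  have := mu1_prob hc0
  have h1 : ∀ᵐ x ∂(mu1 c), ∀ᵐ y ∂mu2, GoodPt Sg B (x, y) := Measure.ae_ae_of_ae_prod h0
  have hne : ENNReal.ofReal c⁻¹ ≠ 0 := by
    rw [Ne, ENNReal.ofReal_eq_zero, not_le]
    positivity
  unfold mu1 at h1
  rw [Measure.ae_ennreal_smul_measure_iff hne] at h1
  filter_upwards [h1] with x hx
  apply le_antisymm
  · refine (Cardinal.mk_subtype_le _).trans ?_
    rw [← Cardinal.power_def, Cardinal.mk_nat, Cardinal.aleph0_power_aleph0]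
  · -- a compact set of good second coordinates
    set N : Set ℝ := toMeasurable mu2 {y | ¬ GoodPt Sg B (x, y)} with hN
    have hN0 : mu2 N = 0 := by rw [hN, measure_toMeasurable]; exact hx
    have hNm : MeasurableSet N := measurableSet_toMeasurable _ _
    have hNc : ∀ y ∈ Nᶜ, GoodPt Sg B (x, y) := by
      intro y hy
      by_contra hb
      exact hy (subset_toMeasurable mu2 _ hb)
    have hpos : 0 < mu2 Nᶜ := by
      have h2 : mu2 Nᶜ = 1 := by
        rw [measure_compl hNm (measure_ne_top _ _), hN0, measure_univ, tsub_zero]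
      rw [h2]; exact one_pos
    obtain ⟨Kc, hKs, hKc, hK0⟩ := hNm.compl.exists_lt_isCompact hpos
    have hKunc : ¬ Kc.Countable := by
      intro hK
      have h3 : mu2 Kc = 0 := by
        unfold mu2
        exact hK.measure_zero _
      rw [h3] at hK0
      exact lt_irrefl _ hK0
    obtain ⟨f, hf1, -, hf3⟩ := hKc.isClosed.exists_nat_bool_injection_of_not_countable hKunc
    have hgood : ∀ b, GoodPt Sg B (x, f b) := fun b => hNc _ (hKs (hf1 (mem_range_self b)))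
    have h4 : Cardinal.mk (ℕ → Bool) ≤ Cardinal.mk (EE β m pu pl x) := by
      apply Cardinal.mk_le_of_injective (f := fun b => (⟨dig (Wd Sg (x, f b)),
        good_EE hβ hc Sg hpu hpl (hgood b)⟩ : EE β m pu pl x))
      intro b b' hbb
      have h5 : dig (Wd Sg (x, f b)) = dig (Wd Sg (x, f b')) := congrArg Subtype.val hbb
      exact hf3 (inj Sg hβ0 (hgood b) (hgood b') h5)
    have h6 : Cardinal.mk (ℕ → Bool) = Cardinal.continuum := by
      rw [← Cardinal.power_def, Cardinal.mk_nat, Cardinal.mk_bool]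
      exact Cardinal.two_power_aleph0
    rw [← h6]
    exact h4

/-- the main theorem -/
theorem main (β : ℝ) (hβ : 1 < β) (pu pl : Fin (⌊β⌋₊ + 1) → ℝ) :
    (∀ᵐ x ∂(volume.restrict (Icc (0 : ℝ) (⌊β⌋₊ / (β - 1)))), (ESet β x pu pl).Nonempty) ↔
      ∀ᵐ x ∂(volume.restrict (Icc (0 : ℝ) (⌊β⌋₊ / (β - 1)))),
        Cardinal.mk (ESet β x pu pl) = Cardinal.continuum := by
  constructor
  · intro h
    have hβ0 : 0 < β := by linarith
    have hβ1 : 0 < β - 1 := by linarith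
    have hm1 : (⌊β⌋₊ : ℝ) ≤ β := Nat.floor_le hβ0.le
    have hm2 : β < ⌊β⌋₊ + 1 := Nat.lt_floor_add_one β
    have hc1 : 1 < (⌊β⌋₊ : ℝ) / (β - 1) := by
      rw [lt_div_iff₀ hβ1]
      linarith
    have hce : β * ((⌊β⌋₊ : ℝ) / (β - 1)) = (⌊β⌋₊ : ℝ) / (β - 1) + ⌊β⌋₊ := by
      field_simp; ring
    have hm3 : 1 ≤ ⌊β⌋₊ := by
      rw [Nat.one_le_floor_iff]
      exact hβ.le
    set pu' : ℕ → ℝ := fun k => if hk : k < ⌊β⌋₊ + 1 then pu ⟨k, hk⟩ else 0 with hpu'
    set pl' : ℕ → ℝ := fun k => if hk : k < ⌊β⌋₊ + 1 then pl ⟨k, hk⟩ else 0 with hpl'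
    have hset : ∀ x, EE β ⌊β⌋₊ pu' pl' x = ESet β x pu pl := by
      intro x
      ext ε
      constructor
      · rintro ⟨h1, h2, h3⟩
        refine ⟨⟨h1, h2⟩, fun k => ?_⟩
        have h4 := h3 k.1 (by omega)
        rw [hpu', hpl'] at h4
        simp only [k.2, dif_pos] at h4
        exact h4
      · rintro ⟨⟨h1, h2⟩, h3⟩
        refine ⟨h1, h2, fun k hk => ?_⟩
        have h4 := h3 ⟨k, by omega⟩
        rw [hpu', hpl']
        simp only [show k < ⌊β⌋₊ + 1 by omega, dif_pos]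
        exact h4
    have hE : volume (Icc (0 : ℝ) (⌊β⌋₊ / (β - 1)) \ {x | (EE β ⌊β⌋₊ pu' pl' x).Nonempty}) = 0 := by
      rw [ae_restrict_iff' measurableSet_Icc, ae_iff] at h
      refine measure_mono_null ?_ h
      rintro x ⟨hx1, hx2⟩ hx3
      apply hx2
      show (EE β ⌊β⌋₊ pu' pl' x).Nonempty
      rw [hset]
      exact hx3 hx1
    have h1 := core hβ hce hc1 hm3 hE
    filter_upwards [h1] with x hx
    rw [hset] at hx
    exact hx
  · intro h
    filter_upwards [h] with x hx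
    by_contra h1
    rw [not_nonempty_iff_eq_empty] at h1
    rw [h1, Cardinal.mk_emptyCollection] at hx
    exact Cardinal.continuum_ne_zero hx.symm

end

end Pool.Agent.V11111.BF
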