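import Pool.Agent.V11111.BF.Stg

open MeasureTheory Set Filter Topology
open scoped ENNReal

namespace Pool.Agent.V11111.BF

open Pool.Agent.V11111.BE

noncomputable section

variable {β c : ℝ} {m : ℕ} (Sg : ℕ → ℕ → Stg β c m)

/-- one step -/
def stepf (i : ℕ) (p : (ℝ × ℝ) × ℕ) : (ℝ × ℝ) × ℕ :=
  ((Sg i p.2).R p.1, p.2 + ((Sg i p.2).w ((Sg i p.2).X p.1)).length)

/-- the process: current point and total length so far -/
def Ps : ℕ → (ℝ × ℝ) → (ℝ × ℝ) × ℕ
  | 0, ω => (ω, 0)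
  | i + 1, ω => stepf Sg i (Ps i ω)

lemma stepf_meas (i : ℕ) : Measurable (stepf Sg i) := by
  apply measurable_from_prod_countable_left
  intro n
  exact (Sg i n).R_meas.prodMk
    ((measurable_of_countable (fun a => n + ((Sg i n).w a).length)).comp (Sg i n).X_meas)

lemma Ps_meas (i : ℕ) : Measurable (Ps Sg i) := by
  induction i with
  | zero => exact measurable_id.prodMk measurable_const
  | succ i ih => exact (stepf_meas Sg i).comp ih

/-- the event that the total length is `n` -/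
def Ev (i : ℕ) (C : Set (ℝ × ℝ)) (n : ℕ) : Set (ℝ × ℝ) := C ∩ {ω | (Ps Sg i ω).2 = n}

lemma Ev_meas (i : ℕ) {C : Set (ℝ × ℝ)} (hC : MeasurableSet C) (n : ℕ) :
    MeasurableSet (Ev Sg i C n) := by
  apply hC.inter
  exact (measurable_snd.comp (Ps_meas Sg i)) (MeasurableSet.singleton n)

/-- the event `C` of the past is independent of the current point -/
structure Ind (i : ℕ) (C : Set (ℝ × ℝ)) : Prop where
  meas : MeasurableSet C
  fac : ∀ n B, MeasurableSet B → PP c (Ev Sg i C n ∩ {ω | (Ps Sg i ω).1 ∈ B})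
    = PP c (Ev Sg i C n) * PP c B

lemma ind_zero (hc0 : 0 < c) : Ind Sg 0 univ := by
  have := Stg.PP_prob hc0
  refine ⟨MeasurableSet.univ, ?_⟩
  intro n B hB
  by_cases h : n = 0
  · have h1 : Ev Sg 0 univ n = univ := by
      ext ω
      simp [Ev, Ps, h]
    rw [h1, univ_inter, measure_univ, one_mul]
    rfl
  · have h1 : Ev Sg 0 univ n = ∅ := by
      ext ω
      simp only [Ev, Ps, univ_inter, mem_setOf_eq, mem_empty_iff_false, iff_false]
      exact fun e => h e.symm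
    rw [h1, empty_inter, measure_empty, zero_mul]

lemma decomp {i : ℕ} {C : Set (ℝ × ℝ)} (h : Ind Sg i C) (D : ℕ → Set (ℝ × ℝ))
    (hD : ∀ n, MeasurableSet (D n)) :
    PP c (C ∩ {ω | (Ps Sg i ω).1 ∈ D (Ps Sg i ω).2}) = ∑' n, PP c (Ev Sg i C n) * PP c (D n) := by
  have h1 : C ∩ {ω | (Ps Sg i ω).1 ∈ D (Ps Sg i ω).2}
      = ⋃ n, (Ev Sg i C n ∩ {ω | (Ps Sg i ω).1 ∈ D n}) := by
    ext ω
    simp only [mem_inter_iff, mem_setOf_eq, mem_iUnion, Ev]
    constructor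
    · rintro ⟨a, b⟩
      exact ⟨_, ⟨a, rfl⟩, b⟩
    · rintro ⟨n, ⟨a, b⟩, d⟩
      rw [b]
      exact ⟨a, d⟩
  rw [h1, measure_iUnion]
  · exact tsum_congr fun n => h.fac n _ (hD n)
  · intro n n' hn
    refine Set.disjoint_left.2 fun ω h3 h4 => hn ?_
    have h5 : (Ps Sg i ω).2 = n := h3.1.2
    have h6 : (Ps Sg i ω).2 = n' := h4.1.2
    exact h5.symm.trans h6
  · intro n
    exact (Ev_meas Sg i h.meas n).inter ((measurable_fst.comp (Ps_meas Sg i)) (hD n))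

lemma sum_Ev {i : ℕ} {C : Set (ℝ × ℝ)} (hC : MeasurableSet C) :
    ∑' n, PP c (Ev Sg i C n) = PP c C := by
  have h1 : C = ⋃ n, Ev Sg i C n := by
    ext ω
    simp [Ev]
  conv_rhs => rw [h1]
  rw [measure_iUnion]
  · intro n n' hn
    refine Set.disjoint_left.2 fun ω h3 h4 => hn ?_
    have h5 : (Ps Sg i ω).2 = n := h3.2
    have h6 : (Ps Sg i ω).2 = n' := h4.2
    exact h5.symm.trans h6
  · exact Ev_meas Sg i hC

/-- restricting the branch at stage `i` -/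
def Nx (i : ℕ) (C : Set (ℝ × ℝ)) (Q : ∀ n, Set (Sg i n).A) : Set (ℝ × ℝ) :=
  C ∩ {ω | (Sg i (Ps Sg i ω).2).X (Ps Sg i ω).1 ∈ Q (Ps Sg i ω).2}

lemma P_Nx {i : ℕ} {C : Set (ℝ × ℝ)} (h : Ind Sg i C) (Q : ∀ n, Set (Sg i n).A) :
    PP c (Nx Sg i C Q) = ∑' n, PP c (Ev Sg i C n) * PP c ((Sg i n).X ⁻¹' (Q n)) :=
  decomp Sg h (fun n => (Sg i n).X ⁻¹' (Q n))
    (fun n => (Sg i n).X_meas (MeasurableSpace.measurableSet_top))

lemma ind_Nx (hβ : 0 < β) (hc0 : 0 < c) (hc : β * c = c + m) {i : ℕ} {C : Set (ℝ × ℝ)}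
    (h : Ind Sg i C) (Q : ∀ n, Set (Sg i n).A) : Ind Sg (i + 1) (Nx Sg i C Q) := by
  classical
  have := Stg.PP_prob hc0
  have hm : MeasurableSet (Nx Sg i C Q) := by
    apply h.meas.inter
    have h1 : Measurable (fun p : (ℝ × ℝ) × ℕ => (if (Sg i p.2).X p.1 ∈ Q p.2 then (1 : ℕ) else 0)) := by
      apply measurable_from_prod_countable_left
      intro n
      exact (measurable_of_countable (fun a => if a ∈ Q n then (1 : ℕ) else 0)).comp
        (Sg i n).X_meas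
    have h2 := (h1.comp (Ps_meas Sg i)) (MeasurableSet.singleton 1)
    convert h2 using 1
    ext ω
    simp only [mem_setOf_eq, mem_preimage, Function.comp, mem_singleton_iff]
    constructor
    · intro h3; rw [if_pos h3]
    · intro h3
      by_contra h4
      rw [if_neg h4] at h3
      omega
  refine ⟨hm, ?_⟩
  have key : ∀ n B, MeasurableSet B →
      PP c (Ev Sg (i + 1) (Nx Sg i C Q) n ∩ {ω | (Ps Sg (i + 1) ω).1 ∈ B})
        = ∑' k, PP c (Ev Sg i C k) *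
          (PP c ((Sg i k).X ⁻¹' (Q k ∩ {a | k + ((Sg i k).w a).length = n})) * PP c B) := by
    intro n B hB
    have h1 : Ev Sg (i + 1) (Nx Sg i C Q) n ∩ {ω | (Ps Sg (i + 1) ω).1 ∈ B}
        = C ∩ {ω | (Ps Sg i ω).1 ∈ (fun k => (Sg i k).X ⁻¹' (Q k ∩
          {a | k + ((Sg i k).w a).length = n}) ∩ (Sg i k).R ⁻¹' B) (Ps Sg i ω).2} := by
      ext ω
      constructor
      · rintro ⟨⟨⟨a1, a2⟩, a3⟩, a4⟩
        exact ⟨a1, ⟨a2, a3⟩, a4⟩
      · rintro ⟨a1, ⟨a2, a3⟩, a4⟩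
        exact ⟨⟨⟨a1, a2⟩, a3⟩, a4⟩
    rw [h1]
    refine (decomp Sg h (fun k => (Sg i k).X ⁻¹' (Q k ∩
          {a | k + ((Sg i k).w a).length = n}) ∩ (Sg i k).R ⁻¹' B) ?_).trans ?_
    · intro k
      exact ((Sg i k).X_meas (MeasurableSpace.measurableSet_top)).inter ((Sg i k).R_meas hB)
    · apply tsum_congr
      intro k
      congr 1
      exact (Sg i k).indep hβ hc0 hc _ hB
  intro n B hB
  have h1 := key n univ MeasurableSet.univ
  have h2 : Ev Sg (i + 1) (Nx Sg i C Q) n ∩ {ω | (Ps Sg (i + 1) ω).1 ∈ (univ : Set (ℝ × ℝ))}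
      = Ev Sg (i + 1) (Nx Sg i C Q) n := by
    ext ω; simp
  rw [h2, measure_univ] at h1
  rw [key n B hB, h1, ← ENNReal.tsum_mul_right]
  apply tsum_congr
  intro k
  rw [mul_one, mul_assoc]

lemma ind_univ (hβ : 0 < β) (hc0 : 0 < c) (hc : β * c = c + m) (i : ℕ) : Ind Sg i univ := by
  induction i with
  | zero => exact ind_zero Sg hc0
  | succ i ih =>
    have h := ind_Nx Sg hβ hc0 hc ih (fun _ => univ)
    have h1 : Nx Sg i univ (fun _ => univ) = univ := by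
      ext ω; simp [Nx]
    rwa [h1] at h

lemma ae_all (hβ : 0 < β) (hc0 : 0 < c) (hc : β * c = c + m) :
    ∀ᵐ ω ∂(PP c), ∀ i, (Ps Sg i ω).1 ∈ (Sg i (Ps Sg i ω).2).all := by
  rw [ae_all_iff]
  intro i
  have h := decomp Sg (ind_univ Sg hβ hc0 hc i) (fun n => ((Sg i n).all)ᶜ)
    (fun n => (Sg i n).all_meas.compl)
  have h0 : ∀ n, PP c ((Sg i n).all)ᶜ = 0 := fun n => (Sg i n).all_P hβ hc0 hc
  simp only [h0, mul_zero, tsum_zero, univ_inter] at h
  rw [ae_iff]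
  exact h

/-- the branch of stage `i` -/
def Bad (B : ∀ i n, Set (Sg i n).A) (i : ℕ) : Set (ℝ × ℝ) :=
  Nx Sg i univ (B i)

lemma ae_bad (hβ : 0 < β) (hc0 : 0 < c) (hc : β * c = c + m) (B : ∀ i n, Set (Sg i n).A)
    (thr : ℕ → ℕ) (hthr : ∀ i ω, 1 ≤ i → thr i ≤ (Ps Sg i ω).2)
    (hB : ∀ i n, thr i ≤ n → PP c ((Sg i n).X ⁻¹' (B i n)) ≤ ENNReal.ofReal ((1 / 2) ^ i)) :
    ∀ᵐ ω ∂(PP c), ∀ᶠ i in atTop, ω ∉ Bad Sg B i := by
  have := Stg.PP_prob hc0
  apply ae_eventually_notMem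
  have h1 : ∀ i, PP c (Bad Sg B (i + 1)) ≤ ENNReal.ofReal ((1 / 2) ^ (i + 1)) := by
    intro i
    unfold Bad
    rw [P_Nx Sg (ind_univ Sg hβ hc0 hc (i + 1))]
    have h2 : ∀ n, PP c (Ev Sg (i + 1) univ n) * PP c ((Sg (i + 1) n).X ⁻¹' (B (i + 1) n))
        ≤ PP c (Ev Sg (i + 1) univ n) * ENNReal.ofReal ((1 / 2) ^ (i + 1)) := by
      intro n
      by_cases hn : thr (i + 1) ≤ n
      · exact mul_le_mul_right (hB (i + 1) n hn) _
      · have h3 : Ev Sg (i + 1) univ n = ∅ := by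
          rw [eq_empty_iff_forall_notMem]
          rintro ω ⟨-, h4⟩
          have h5 : (Ps Sg (i + 1) ω).2 = n := h4
          have h6 := hthr (i + 1) ω (by omega)
          omega
        rw [h3, measure_empty, zero_mul, zero_mul]
    refine (ENNReal.tsum_le_tsum h2).trans ?_
    rw [ENNReal.tsum_mul_right, sum_Ev Sg MeasurableSet.univ, measure_univ, one_mul]
  have h2 : ∑' i, PP c (Bad Sg B (i + 1)) ≠ ⊤ := by
    apply ne_top_of_le_ne_top _ (ENNReal.tsum_le_tsum h1)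
    have h3 : Summable (fun i : ℕ => ((1 : ℝ) / 2) ^ (i + 1)) :=
      (summable_nat_add_iff 1).2 summable_geometric_two
    exact h3.tsum_ofReal_ne_top
  rw [tsum_eq_zero_add' ENNReal.summable]
  exact ENNReal.add_ne_top.2 ⟨measure_ne_top _ _, h2⟩

/-- no splitting in the stages `N, …, N + k - 1` -/
def Nsp (N : ℕ) : ℕ → Set (ℝ × ℝ)
  | 0 => univ
  | k + 1 => Nx Sg (N + k) (Nsp N k) (fun n => {a | (Sg (N + k) n).s a = none})

lemma ae_split (hβ : 0 < β) (hc0 : 0 < c) (hc : β * c = c + m) (q : ℝ≥0∞) (hq : q < 1)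
    (hs : ∀ i n, PP c ((Sg i n).X ⁻¹' {a | (Sg i n).s a = none}) ≤ q) :
    ∀ᵐ ω ∂(PP c), ∀ N, ∃ i, N ≤ i ∧
      (Sg i (Ps Sg i ω).2).s ((Sg i (Ps Sg i ω).2).X (Ps Sg i ω).1) ≠ none := by
  have := Stg.PP_prob hc0
  rw [ae_all_iff]
  intro N
  have h1 : ∀ k, Ind Sg (N + k) (Nsp Sg N k) ∧ PP c (Nsp Sg N k) ≤ q ^ k := by
    intro k
    induction k with
    | zero =>
      refine ⟨ind_univ Sg hβ hc0 hc N, ?_⟩
      show PP c univ ≤ q ^ 0
      rw [measure_univ, pow_zero]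
    | succ k ih =>
      refine ⟨ind_Nx Sg hβ hc0 hc ih.1 _, ?_⟩
      show PP c (Nx Sg (N + k) (Nsp Sg N k) _) ≤ _
      rw [P_Nx Sg ih.1]
      have h2 : ∀ n, PP c (Ev Sg (N + k) (Nsp Sg N k) n) *
          PP c ((Sg (N + k) n).X ⁻¹' {a | (Sg (N + k) n).s a = none})
          ≤ PP c (Ev Sg (N + k) (Nsp Sg N k) n) * q := fun n => mul_le_mul_right (hs _ n) _
      refine (ENNReal.tsum_le_tsum h2).trans ?_
      rw [ENNReal.tsum_mul_right, sum_Ev Sg ih.1.meas, pow_succ]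
      exact mul_le_mul_left ih.2 _
  have hsub : ∀ k, {ω : ℝ × ℝ | ¬ ∃ i, N ≤ i ∧
      (Sg i (Ps Sg i ω).2).s ((Sg i (Ps Sg i ω).2).X (Ps Sg i ω).1) ≠ none} ⊆ Nsp Sg N k := by
    intro k
    induction k with
    | zero => exact subset_univ _
    | succ k ih =>
      intro ω hω
      refine ⟨ih hω, ?_⟩
      by_contra h3
      exact hω ⟨N + k, by omega, h3⟩
  rw [ae_iff]
  rw [← nonpos_iff_eq_zero]
  have h3 : Tendsto (fun k : ℕ => q ^ k) atTop (𝓝 0) := ENNReal.tendsto_pow_atTop_nhds_zero_of_lt_one hq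
  exact ge_of_tendsto' h3 fun k => (measure_mono (hsub k)).trans (h1 k).2

/-- the words -/
def Wd (ω : ℝ × ℝ) (i : ℕ) : List ℕ :=
  (Sg i (Ps Sg i ω).2).w ((Sg i (Ps Sg i ω).2).X (Ps Sg i ω).1)

lemma Wd_ne (ω : ℝ × ℝ) (i : ℕ) : Wd Sg ω i ≠ [] := Stg.ne _ _

lemma Wd_dig (ω : ℝ × ℝ) (i : ℕ) : ∀ k ∈ Wd Sg ω i, k ≤ m := Stg.dig_le _ _

lemma pre_len (ω : ℝ × ℝ) (i : ℕ) : (pre (Wd Sg ω) i).length = (Ps Sg i ω).2 := by
  induction i with
  | zero => rfl
  | succ i ih =>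
    rw [pre_len_succ, ih]
    rfl

lemma value (hβ : 0 < β) (ω : ℝ × ℝ) (i : ℕ) :
    fw β (pre (Wd Sg ω) i) (Ps Sg i ω).1.1 = ω.1 := by
  induction i with
  | zero => rfl
  | succ i ih =>
    show fw β (pre (Wd Sg ω) i ++ Wd Sg ω i) _ = _
    rw [fw_append]
    have h1 : fw β (Wd Sg ω i) (Ps Sg (i + 1) ω).1.1 = (Ps Sg i ω).1.1 := fw_g1 hβ _ _
    rw [h1, ih]

/-- good points -/
structure GoodPt (B : ∀ i n, Set (Sg i n).A) (ω : ℝ × ℝ) : Prop where
  all : ∀ i, (Ps Sg i ω).1 ∈ (Sg i (Ps Sg i ω).2).all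
  bad : ∀ᶠ i in atTop, ω ∉ Bad Sg B i
  spl : ∀ N, ∃ i, N ≤ i ∧
      (Sg i (Ps Sg i ω).2).s ((Sg i (Ps Sg i ω).2).X (Ps Sg i ω).1) ≠ none

lemma good_mem (hβ : 0 < β) (hc : β * c = c + m) {B : ∀ i n, Set (Sg i n).A} {ω : ℝ × ℝ}
    (h : GoodPt Sg B ω) (i : ℕ) : (Ps Sg i ω).1.1 ∈ Icc 0 c := by
  have h1 := Stg.mem_rect _ (h.all i)
  exact tile_sub hβ hc (Stg.dig_le _ _) h1.1

lemma good_mem2 {B : ∀ i n, Set (Sg i n).A} {ω : ℝ × ℝ} (h : GoodPt Sg B ω) (i : ℕ) :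
    (Ps Sg i ω).1.2 ∈ Ico 0 1 := by
  have h1 := Stg.mem_rect _ (h.all i)
  exact h1.2.2

/-- number of splittings -/
def nsp (ω : ℝ × ℝ) (i : ℕ) : ℕ := ∑ j ∈ Finset.range i,
  if (Sg j (Ps Sg j ω).2).s ((Sg j (Ps Sg j ω).2).X (Ps Sg j ω).1) = none then 0 else 1

lemma nsp_top {B : ∀ i n, Set (Sg i n).A} {ω : ℝ × ℝ} (h : GoodPt Sg B ω) :
    Tendsto (nsp Sg ω) atTop atTop := by
  have hmono : Monotone (nsp Sg ω) := by
    apply monotone_nat_of_le_succ
    intro n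
    unfold nsp
    rw [Finset.sum_range_succ]
    omega
  apply tendsto_atTop_atTop_of_monotone hmono
  intro b
  induction b with
  | zero => exact ⟨0, Nat.zero_le _⟩
  | succ b ih =>
    obtain ⟨N, hN⟩ := ih
    obtain ⟨i, hi, hs⟩ := h.spl N
    refine ⟨i + 1, ?_⟩
    have h1 : nsp Sg ω (i + 1) = nsp Sg ω i + 1 := by
      unfold nsp
      rw [Finset.sum_range_succ, if_neg hs]
    have h2 := hmono hi
    omega

lemma inj (hβ : 0 < β) {B : ∀ i n, Set (Sg i n).A} {x y y' : ℝ}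
    (h : GoodPt Sg B (x, y)) (h' : GoodPt Sg B (x, y'))
    (hd : dig (Wd Sg (x, y)) = dig (Wd Sg (x, y'))) : y = y' := by
  have claim : ∀ i : ℕ, pre (Wd Sg (x, y)) i = pre (Wd Sg (x, y')) i ∧
      (Ps Sg i (x, y)).1.1 = (Ps Sg i (x, y')).1.1 ∧ (Ps Sg i (x, y)).2 = (Ps Sg i (x, y')).2 ∧
      |(Ps Sg i (x, y)).1.2 - (Ps Sg i (x, y')).1.2| = 2 ^ (nsp Sg (x, y) i) * |y - y'| := by
    intro i
    induction i with
    | zero => simp [pre, Ps, nsp]
    | succ i ih =>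
      obtain ⟨h1, h2, h3, h4⟩ := ih
      have r1 := Stg.mem_rect _ (h.all i)
      have r2 := Stg.mem_rect _ (h'.all i)
      have hWne := Wd_ne Sg
      have hw : (Sg i (Ps Sg i (x, y)).2).w ((Sg i (Ps Sg i (x, y)).2).X (Ps Sg i (x, y)).1)
        = Wd Sg (x, y) i := rfl
      have hw' : (Sg i (Ps Sg i (x, y')).2).w ((Sg i (Ps Sg i (x, y')).2).X (Ps Sg i (x, y')).1)
        = Wd Sg (x, y') i := rfl
      rw [← h3] at r2 hw'
      have hX : (Sg i (Ps Sg i (x, y)).2).X (Ps Sg i (x, y)).1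
          = (Sg i (Ps Sg i (x, y)).2).X (Ps Sg i (x, y')).1 := by
        by_contra hne
        rcases (Sg i (Ps Sg i (x, y)).2).dis _ _ hne with h5 | ⟨h5, -⟩
        · have t1 := r1.1
          have t2 := r2.1
          rw [← h2] at t2
          exact Set.disjoint_left.1 h5 t1 t2
        · apply h5
          rw [hw, hw']
          have hh : ∀ ω : ℝ × ℝ, (Wd Sg ω i).head?
              = some (dig (Wd Sg ω) (pre (Wd Sg ω) i).length) := by
            intro ω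
            have hlt : (pre (Wd Sg ω) i).length < (pre (Wd Sg ω) (i + 1)).length := by
              rw [pre_len_succ]
              have := List.length_pos_iff.2 (hWne ω i)
              omega
            rw [dig_eq (hWne ω) hlt]
            show _ = some ((pre (Wd Sg ω) i ++ Wd Sg ω i).getD _ 0)
            rw [List.getD_append_right _ _ _ _ le_rfl, Nat.sub_self]
            rcases hh2 : Wd Sg ω i with _ | ⟨k, w⟩
            · exact absurd hh2 (hWne ω i)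
            · simp
          rw [hh, hh, hd, h1]
      have hWn : Wd Sg (x, y) i = Wd Sg (x, y') i := by
        rw [← hw, ← hw', hX]
      refine ⟨?_, ?_, ?_, ?_⟩
      · show pre (Wd Sg (x, y)) i ++ Wd Sg (x, y) i = pre (Wd Sg (x, y')) i ++ Wd Sg (x, y') i
        rw [h1, hWn]
      · show g1 β (Wd Sg (x, y) i) (Ps Sg i (x, y)).1.1
          = g1 β (Wd Sg (x, y') i) (Ps Sg i (x, y')).1.1
        rw [hWn, h2]
      · show (Ps Sg i (x, y)).2 + (Wd Sg (x, y) i).length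
          = (Ps Sg i (x, y')).2 + (Wd Sg (x, y') i).length
        rw [hWn, h3]
      · have h6 : nsp Sg (x, y) (i + 1) = nsp Sg (x, y) i +
            if (Sg i (Ps Sg i (x, y)).2).s ((Sg i (Ps Sg i (x, y)).2).X (Ps Sg i (x, y)).1) = none
              then 0 else 1 := by
          unfold nsp
          rw [Finset.sum_range_succ]
        have e1 : (Ps Sg (i + 1) (x, y)).1.2 = g2 ((Sg i (Ps Sg i (x, y)).2).s
            ((Sg i (Ps Sg i (x, y)).2).X (Ps Sg i (x, y)).1)) (Ps Sg i (x, y)).1.2 := rfl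
        have e2 : (Ps Sg (i + 1) (x, y')).1.2 = g2 ((Sg i (Ps Sg i (x, y)).2).s
            ((Sg i (Ps Sg i (x, y)).2).X (Ps Sg i (x, y)).1)) (Ps Sg i (x, y')).1.2 := by
          rw [hX, h3]
          rfl
        have h5 : ∀ (s : Option Bool) (u v : ℝ), |g2 s u - g2 s v|
            = 2 ^ (if s = none then 0 else 1) * |u - v| := by
          intro s u v
          rcases s with _ | _ | _
          · simp [g2]
          · rw [if_neg (by simp), pow_one]
            show |2 * u - 2 * v| = _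
            rw [← mul_sub, abs_mul, abs_of_pos (by norm_num : (0 : ℝ) < 2)]
          · rw [if_neg (by simp), pow_one]
            show |2 * u - 1 - (2 * v - 1)| = _
            rw [show 2 * u - 1 - (2 * v - 1) = 2 * (u - v) by ring, abs_mul,
              abs_of_pos (by norm_num : (0 : ℝ) < 2)]
        rw [e1, e2, h5, h4, h6, pow_add]
        ring
  by_contra hne
  have hpos : 0 < |y - y'| := abs_pos.2 (sub_ne_zero.2 hne)
  have hpow : Tendsto (fun n : ℕ => (2 : ℝ) ^ (nsp Sg (x, y) n) * |y - y'|) atTop atTop := by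
    apply Tendsto.atTop_mul_const hpos
    exact (tendsto_pow_atTop_atTop_of_one_lt (by norm_num)).comp (nsp_top Sg h)
  obtain ⟨n, hn⟩ := (hpow.eventually (Filter.eventually_gt_atTop 1)).exists
  have h1 := (claim n).2.2.2
  have h2 := good_mem2 Sg h n
  have h3 := good_mem2 Sg h' n
  have h4 : |(Ps Sg n (x, y)).1.2 - (Ps Sg n (x, y')).1.2| < 1 := by
    rw [abs_lt]
    constructor <;> linarith [h2.1, h2.2, h3.1, h3.2]
  linarith

end

end Pool.Agent.V11111.BF
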