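import Pool.Agent.V11111.BF.Stg
import Pool.Agent.V11111.BF.Defs

open MeasureTheory Set Filter Topology
open scoped ENNReal

namespace Pool.Agent.V11111.BF

open Pool.Agent.V11111.BE

noncomputable section

/-! ### bounded real sequences -/

section Bd

variable {a : ℕ → ℝ} (h0 : ∀ n, 0 ≤ a n) (h1 : ∀ n, a n ≤ 1)
include h0 h1

lemma bddU : IsBoundedUnder (· ≤ ·) atTop a := isBoundedUnder_of ⟨1, h1⟩
lemma bddL : IsBoundedUnder (· ≥ ·) atTop a := isBoundedUnder_of ⟨0, h0⟩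

lemma ls_lt {L δ : ℝ} (hL : limsup a atTop = L) (hδ : 0 < δ) : ∀ᶠ n in atTop, a n < L + δ :=
  eventually_lt_of_limsup_lt (by rw [hL]; linarith) (bddU h0 h1)

lemma ls_fr {L δ : ℝ} (hL : limsup a atTop = L) (hδ : 0 < δ) : ∃ᶠ n in atTop, L - δ < a n :=
  frequently_lt_of_lt_limsup ((bddL h0 h1).isCoboundedUnder_le) (by rw [hL]; linarith)

lemma li_lt {L δ : ℝ} (hL : liminf a atTop = L) (hδ : 0 < δ) : ∀ᶠ n in atTop, L - δ < a n :=
  eventually_lt_of_lt_liminf (by rw [hL]; linarith) (bddL h0 h1)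

lemma li_fr {L δ : ℝ} (hL : liminf a atTop = L) (hδ : 0 < δ) : ∃ᶠ n in atTop, a n < L + δ :=
  frequently_lt_of_liminf_lt ((bddU h0 h1).isCoboundedUnder_ge) (by rw [hL]; linarith)

lemma ls_le_one {L : ℝ} (hL : limsup a atTop = L) : L ≤ 1 := by
  rw [← hL]
  exact limsup_le_of_le ((bddL h0 h1).isCoboundedUnder_le) (Eventually.of_forall h1)

lemma ls_nn {L : ℝ} (hL : limsup a atTop = L) : 0 ≤ L := by
  rw [← hL]
  exact le_limsup_of_frequently_le (Eventually.of_forall h0).frequently (bddU h0 h1)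

lemma li_nn {L : ℝ} (hL : liminf a atTop = L) : 0 ≤ L := by
  rw [← hL]
  exact le_liminf_of_le ((bddU h0 h1).isCoboundedUnder_ge) (Eventually.of_forall h0)

lemma li_le_one {L : ℝ} (hL : liminf a atTop = L) : L ≤ 1 := by
  rw [← hL]
  exact liminf_le_of_frequently_le (Eventually.of_forall h1).frequently (bddL h0 h1)

lemma ls_eq {L : ℝ} (hu : ∀ δ > 0, ∀ᶠ n in atTop, a n ≤ L + δ)
    (hl : ∀ δ > 0, ∃ᶠ n in atTop, L - δ ≤ a n) : limsup a atTop = L := by
  apply le_antisymm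
  · apply le_of_forall_pos_le_add
    intro δ hδ
    exact limsup_le_of_le ((bddL h0 h1).isCoboundedUnder_le) (hu δ hδ)
  · apply le_of_forall_pos_le_add
    intro δ hδ
    have := le_limsup_of_frequently_le (hl δ hδ) (bddU h0 h1)
    linarith

lemma li_eq {L : ℝ} (hu : ∀ δ > 0, ∀ᶠ n in atTop, L - δ ≤ a n)
    (hl : ∀ δ > 0, ∃ᶠ n in atTop, a n ≤ L + δ) : liminf a atTop = L := by
  apply le_antisymm
  · apply le_of_forall_pos_le_add
    intro δ hδ
    exact liminf_le_of_frequently_le (hl δ hδ) (bddL h0 h1)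
  · apply le_of_forall_pos_le_add
    intro δ hδ
    have := le_liminf_of_le ((bddU h0 h1).isCoboundedUnder_ge) (hu δ hδ)
    linarith

end Bd

lemma prop_nn (ε : ℕ → ℕ) (k n : ℕ) : 0 ≤ prop ε k n := by unfold prop; positivity

lemma cnt_le (ε : ℕ → ℕ) (k n : ℕ) : cnt ε k n ≤ n := by
  unfold cnt
  exact (Finset.card_filter_le _ _).trans (by simp)

lemma prop_eq (ε : ℕ → ℕ) (k n : ℕ) : prop ε k n = (cnt ε k n : ℝ) / n := rfl

lemma prop_le (ε : ℕ → ℕ) (k n : ℕ) : prop ε k n ≤ 1 := by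
  rw [prop_eq]
  rcases Nat.eq_zero_or_pos n with rfl | hn
  · simp
  · have : (0 : ℝ) < n := by exact_mod_cast hn
    rw [div_le_one this]
    exact_mod_cast cnt_le ε k n

/-! ### first words of an expansion -/

/-- the word of the first `N` digits -/
def pf (ε : ℕ → ℕ) (N : ℕ) : List ℕ := (List.range N).map ε

@[simp] lemma pf_length (ε : ℕ → ℕ) (N : ℕ) : (pf ε N).length = N := by simp [pf]

lemma pf_take (ε : ℕ → ℕ) {N t : ℕ} (h : t ≤ N) : (pf ε N).take t = pf ε t := by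
  unfold pf
  rw [← List.map_take, List.take_range, min_eq_left h]

lemma pf_count (ε : ℕ → ℕ) (k N : ℕ) : (pf ε N).count k = cnt ε k N := (cnt_eq_count ε k N).symm

variable {β c : ℝ} {m : ℕ}

lemma pf_tile (hβ : 1 < β) (hc : β * c = c + m) {x : ℝ} {ε : ℕ → ℕ} (hε : ∀ i, ε i ≤ m)
    (hx : HasSum (fun i => (ε i : ℝ) / β ^ (i + 1)) x) (N : ℕ) : x ∈ tile β c (pf ε N) := by
  have hβ0 : 0 < β := by linarith
  have hβ1 : 0 < β - 1 := by linarith
  have hlo : lo β (pf ε N) = ∑ i ∈ Finset.range N, (ε i : ℝ) / β ^ (i + 1) := by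
    unfold lo
    rw [fw_zero_eq_sum hβ0, pf_length]
    apply Finset.sum_congr rfl
    intro i hi
    have hi' : i < (pf ε N).length := by rw [pf_length]; exact Finset.mem_range.1 hi
    rw [List.getD_eq_getElem _ _ hi']
    simp [pf]
  have h1 := (hasSum_nat_add_iff' N).2 hx
  rw [← hlo] at h1
  have h2 : HasSum (fun i : ℕ => (m : ℝ) / β ^ (i + N + 1)) (c / β ^ N) := by
    have h3 := (hasSum_geometric_of_lt_one (by positivity : 0 ≤ β⁻¹)
      (inv_lt_one_of_one_lt₀ hβ)).mul_left ((m : ℝ) / β ^ (N + 1))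
    have e1 : (fun i : ℕ => (m : ℝ) / β ^ (i + N + 1))
        = fun i : ℕ => (m : ℝ) / β ^ (N + 1) * β⁻¹ ^ i := by
      funext i
      rw [inv_pow, ← div_eq_mul_inv, div_div, ← pow_add]
      congr 2
      ring
    have e2 : c / β ^ N = (m : ℝ) / β ^ (N + 1) * (1 - β⁻¹)⁻¹ := by
      have hm : (m : ℝ) = c * (β - 1) := by linarith
      have h5 : 1 - β⁻¹ = (β - 1) / β := by field_simp
      rw [hm, pow_succ, h5]
      field_simp
    rw [e1, e2]
    exact h3
  have h4 := hasSum_le (fun i => by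
    apply div_le_div_of_nonneg_right _ (by positivity)
    exact_mod_cast hε (i + N)) h1 h2
  have h5 := h1.nonneg (fun i => by positivity)
  rw [tile_eq hβ0]
  refine ⟨by linarith, ?_⟩
  have h6 : hi β c (pf ε N) = lo β (pf ε N) + c / β ^ N := by
    unfold hi lo
    rw [pf_length]
  rw [h6]
  linarith

/-! ### good words -/

/-- The word `w`, read after `n` other letters, keeps and realizes the frequencies up to `δ`. -/
structure GW (m : ℕ) (pu pl : ℕ → ℝ) (δ : ℝ) (n : ℕ) (w : List ℕ) : Prop where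
  up : ∀ k ≤ m, ∀ t ≤ w.length, ((w.take t).count k : ℝ) ≤ (pu k + δ) * t + δ * n
  lo : ∀ k ≤ m, ∀ t ≤ w.length, (pl k - δ) * t - δ * n ≤ ((w.take t).count k : ℝ)
  hu : ∀ k ≤ m, ∃ t ≤ w.length, 1 ≤ t ∧ (n : ℝ) ≤ δ * t ∧ (pu k - δ) * t ≤ ((w.take t).count k : ℝ)
  hl : ∀ k ≤ m, ∃ t ≤ w.length, 1 ≤ t ∧ (n : ℝ) ≤ δ * t ∧ ((w.take t).count k : ℝ) ≤ (pl k + δ) * t

/-- accuracy with constant `K` -/
def Acc (m : ℕ) (pu pl : ℕ → ℝ) (δ : ℝ) (K : ℕ) (ε : ℕ → ℕ) : Prop :=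
  ∀ k ≤ m, ∀ t : ℕ, (cnt ε k t : ℝ) ≤ (pu k + δ) * t + K ∧ (pl k - δ) * t - K ≤ (cnt ε k t : ℝ)

lemma Acc.mono {pu pl : ℕ → ℝ} {δ : ℝ} {K K' : ℕ} (h : K ≤ K') {ε : ℕ → ℕ}
    (ha : Acc m pu pl δ K ε) : Acc m pu pl δ K' ε := by
  intro k hk t
  have h1 : (K : ℝ) ≤ K' := by exact_mod_cast h
  obtain ⟨a, b⟩ := ha k hk t
  constructor <;> linarith

/-- prescribed frequencies -/
def Fr (m : ℕ) (pu pl : ℕ → ℝ) (ε : ℕ → ℕ) : Prop :=
  ∀ k ≤ m, limsup (fun n => prop ε k n) atTop = pu k ∧ liminf (fun n => prop ε k n) atTop = pl k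

lemma exists_acc {pu pl : ℕ → ℝ} {ε : ℕ → ℕ} (h : Fr m pu pl ε) {δ : ℝ} (hδ : 0 < δ) :
    ∃ K, Acc m pu pl δ K ε := by
  have h1 : ∀ k ≤ m, ∃ K : ℕ, ∀ t : ℕ, (cnt ε k t : ℝ) ≤ (pu k + δ) * t + K ∧
      (pl k - δ) * t - K ≤ (cnt ε k t : ℝ) := by
    intro k hk
    obtain ⟨hu, hl⟩ := h k hk
    have a1 := ls_lt (prop_nn ε k) (prop_le ε k) hu hδ
    have a2 := li_lt (prop_nn ε k) (prop_le ε k) hl hδ
    have a3 := ls_nn (prop_nn ε k) (prop_le ε k) hu
    have a4 := li_le_one (prop_nn ε k) (prop_le ε k) hl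
    obtain ⟨K, hK⟩ := eventually_atTop.1 (a1.and a2)
    refine ⟨K, fun t => ?_⟩
    rcases le_or_gt K t with h2 | h2
    · rcases Nat.eq_zero_or_pos t with rfl | ht
      · simp [cnt]
      · obtain ⟨b1, b2⟩ := hK t h2
        have ht' : (0 : ℝ) < t := by exact_mod_cast ht
        rw [prop_eq, div_lt_iff₀ ht'] at b1
        rw [prop_eq, lt_div_iff₀ ht'] at b2
        have hK0 : (0 : ℝ) ≤ K := Nat.cast_nonneg K
        constructor <;> linarith
    · have h3 : (cnt ε k t : ℝ) ≤ t := by exact_mod_cast cnt_le ε k t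
      have h4 : (t : ℝ) ≤ K := by exact_mod_cast h2.le
      have h5 : (0 : ℝ) ≤ (pu k + δ) * t := by positivity
      have h6 : (pl k - δ) * t ≤ 1 * t :=
        mul_le_mul_of_nonneg_right (by linarith) (Nat.cast_nonneg t)
      have h7 : (0 : ℝ) ≤ cnt ε k t := Nat.cast_nonneg _
      constructor <;> linarith
  choose! f hf using h1
  refine ⟨∑ k ∈ Finset.range (m + 1), f k, fun k hk t => ?_⟩
  have h2 : f k ≤ ∑ k ∈ Finset.range (m + 1), f k :=
    Finset.single_le_sum (f := f) (fun _ _ => Nat.zero_le _) (Finset.mem_range.2 (by omega))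
  have h3 : (f k : ℝ) ≤ ((∑ k ∈ Finset.range (m + 1), f k : ℕ) : ℝ) := by exact_mod_cast h2
  obtain ⟨a, b⟩ := hf k hk t
  constructor <;> linarith

lemma exists_GW {pu pl : ℕ → ℝ} {ε : ℕ → ℕ} (h : Fr m pu pl ε) {δ : ℝ} (hδ : 0 < δ) {K n : ℕ}
    (ha : Acc m pu pl δ K ε) (hK : (K : ℝ) ≤ δ * n) :
    ∃ N0, ∀ N, N0 ≤ N → GW m pu pl δ n (pf ε N) := by
  obtain ⟨T, hT⟩ : ∃ T : ℕ, (n : ℝ) ≤ δ * T := by
    obtain ⟨T, hT⟩ := exists_nat_ge ((n : ℝ) / δ)
    refine ⟨T, ?_⟩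
    rw [div_le_iff₀ hδ] at hT
    linarith
  have hT' : ∀ t : ℕ, T ≤ t → (n : ℝ) ≤ δ * t := by
    intro t ht
    have : (T : ℝ) ≤ t := by exact_mod_cast ht
    nlinarith
  have h1 : ∀ k ≤ m, ∃ t : ℕ, 1 ≤ t ∧ (n : ℝ) ≤ δ * t ∧ (pu k - δ) * t ≤ (cnt ε k t : ℝ) := by
    intro k hk
    have a1 := ls_fr (prop_nn ε k) (prop_le ε k) (h k hk).1 hδ
    obtain ⟨t, ht, h2⟩ := (frequently_atTop.1 a1) (max T 1)
    have h3 : 1 ≤ t := (le_max_right _ _).trans ht
    have h4 : (0 : ℝ) < t := by exact_mod_cast h3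
    rw [prop_eq, lt_div_iff₀ h4] at h2
    exact ⟨t, h3, hT' t ((le_max_left _ _).trans ht), h2.le⟩
  have h2 : ∀ k ≤ m, ∃ t : ℕ, 1 ≤ t ∧ (n : ℝ) ≤ δ * t ∧ (cnt ε k t : ℝ) ≤ (pl k + δ) * t := by
    intro k hk
    have a1 := li_fr (prop_nn ε k) (prop_le ε k) (h k hk).2 hδ
    obtain ⟨t, ht, h2⟩ := (frequently_atTop.1 a1) (max T 1)
    have h3 : 1 ≤ t := (le_max_right _ _).trans ht
    have h4 : (0 : ℝ) < t := by exact_mod_cast h3
    rw [prop_eq, div_lt_iff₀ h4] at h2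
    exact ⟨t, h3, hT' t ((le_max_left _ _).trans ht), h2.le⟩
  choose! f hf1 hf2 hf3 using h1
  choose! g hg1 hg2 hg3 using h2
  refine ⟨∑ k ∈ Finset.range (m + 1), (f k + g k), fun N hN => ?_⟩
  have hle : ∀ k ≤ m, f k + g k ≤ N := fun k hk =>
    (Finset.single_le_sum (f := fun k => f k + g k) (fun _ _ => Nat.zero_le _)
      (Finset.mem_range.2 (by omega))).trans hN
  refine ⟨?_, ?_, ?_, ?_⟩
  · intro k hk t ht
    rw [pf_length] at ht
    rw [pf_take ε ht, pf_count]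
    have := (ha k hk t).1
    linarith
  · intro k hk t ht
    rw [pf_length] at ht
    rw [pf_take ε ht, pf_count]
    have := (ha k hk t).2
    linarith
  · intro k hk
    have h3 := hle k hk
    refine ⟨f k, by rw [pf_length]; omega, hf1 k hk, hf2 k hk, ?_⟩
    rw [pf_take ε (by omega), pf_count]
    exact hf3 k hk
  · intro k hk
    have h3 := hle k hk
    refine ⟨g k, by rw [pf_length]; omega, hg1 k hk, hg2 k hk, ?_⟩
    rw [pf_take ε (by omega), pf_count]
    exact hg3 k hk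

/-! ### concatenations of good words -/

lemma cnt_add {W : ℕ → List ℕ} (hW : ∀ n, W n ≠ []) (k i : ℕ) {t : ℕ} (ht : t ≤ (W i).length) :
    cnt (dig W) k ((pre W i).length + t)
      = cnt (dig W) k (pre W i).length + ((W i).take t).count k := by
  have h1 : (List.range ((pre W i).length + t)).map (dig W) = pre W i ++ (W i).take t := by
    have h2 := map_dig hW (i + 1)
    have h3 := congrArg (List.take ((pre W i).length + t)) h2
    rw [← List.map_take, List.take_range, min_eq_left] at h3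
    · rw [h3]
      show List.take _ (pre W i ++ W i) = _
      rw [List.take_length_add_append]
    · rw [pre_len_succ]
      omega
  rw [cnt_eq_count, h1, List.count_append, cnt_eq_count, map_dig hW]

lemma half_sum (i : ℕ) : 2 * (1 / 2 : ℝ) ^ (i + 1) = (1 / 2) ^ i := by
  rw [pow_succ]; ring

/-- the drift estimate -/
lemma drift {W : ℕ → List ℕ} (hW : ∀ n, W n ≠ []) {f : ℕ → ℝ} {i0 : ℕ}
    (h : ∀ i, i0 ≤ i → ∀ t ≤ (W i).length, f ((pre W i).length + t)
      ≤ f (pre W i).length + (1 / 2) ^ i * (((pre W i).length + t : ℕ) : ℝ)) :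
    ∀ η > 0, ∀ᶠ T : ℕ in atTop, f T ≤ η * T := by
  set N : ℕ → ℕ := fun i => (pre W i).length with hN
  have hNs : ∀ i, N (i + 1) = N i + (W i).length := fun i => pre_len_succ W i
  have hNge : ∀ i, i ≤ N i := pre_len_ge hW
  have step : ∀ i1, i0 ≤ i1 → ∀ j, f (N (i1 + j)) ≤ f (N i1) +
      (2 * (1 / 2) ^ i1 - 2 * (1 / 2) ^ (i1 + j)) * (N (i1 + j) : ℝ) := by
    intro i1 hi1 j
    induction j with
    | zero => simp
    | succ j ih =>
      have h1 := h (i1 + j) (by omega) (W (i1 + j)).length le_rfl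
      have h2 : N (i1 + (j + 1)) = N (i1 + j) + (W (i1 + j)).length := hNs (i1 + j)
      rw [h2]
      have h3 : f (N (i1 + j) + (W (i1 + j)).length) ≤ f (N (i1 + j)) + (1 / 2) ^ (i1 + j) *
          ((N (i1 + j) + (W (i1 + j)).length : ℕ) : ℝ) := h1
      have h4 : (N (i1 + j) : ℝ) ≤ ((N (i1 + j) + (W (i1 + j)).length : ℕ) : ℝ) := by
        push_cast
        have : (0 : ℝ) ≤ (W (i1 + j)).length := Nat.cast_nonneg _
        linarith
      have h5 : 0 ≤ 2 * (1 / 2 : ℝ) ^ i1 - 2 * (1 / 2) ^ (i1 + j) := by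
        have : (1 / 2 : ℝ) ^ (i1 + j) ≤ (1 / 2) ^ i1 :=
          pow_le_pow_of_le_one (by norm_num) (by norm_num) (by omega)
        linarith
      have h6 := mul_le_mul_of_nonneg_left h4 h5
      have h7 : 2 * (1 / 2 : ℝ) ^ (i1 + (j + 1)) = (1 / 2) ^ (i1 + j) := half_sum (i1 + j)
      rw [h7]
      nlinarith
  intro η hη
  obtain ⟨i1, hi1, hi2⟩ : ∃ i1, i0 ≤ i1 ∧ 3 * (1 / 2 : ℝ) ^ i1 ≤ η / 2 := by
    have h1 : Tendsto (fun i : ℕ => 3 * (1 / 2 : ℝ) ^ i) atTop (𝓝 (3 * 0)) :=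
      (tendsto_pow_atTop_nhds_zero_of_lt_one (by norm_num) (by norm_num)).const_mul 3
    rw [mul_zero] at h1
    have h2 := (h1.eventually (gt_mem_nhds (by linarith : (0 : ℝ) < η / 2))).and
      (eventually_ge_atTop i0)
    obtain ⟨i1, h3, h4⟩ := h2.exists
    exact ⟨i1, h4, h3.le⟩
  have hC : ∀ᶠ T : ℕ in atTop, f (N i1) ≤ η / 2 * T := by
    have h1 : Tendsto (fun T : ℕ => η / 2 * (T : ℝ)) atTop atTop :=
      tendsto_natCast_atTop_atTop.const_mul_atTop (by linarith)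
    exact h1.eventually (eventually_ge_atTop _)
  filter_upwards [hC, eventually_ge_atTop (N i1)] with T hT1 hT2
  -- find the block of `T`
  obtain ⟨j, hj1, hj2⟩ : ∃ j, N (i1 + j) ≤ T ∧ T < N (i1 + j + 1) := by
    have hex : ∃ j, T < N (i1 + j) := ⟨T + 1, lt_of_lt_of_le (by omega) (hNge _)⟩
    classical
    have h1 := Nat.find_spec hex
    rcases hj : Nat.find hex with _ | j
    · rw [hj] at h1
      simp at h1
      omega
    · rw [hj] at h1
      refine ⟨j, ?_, h1⟩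
      have h2 := Nat.find_min hex (m := j) (by omega)
      omega
  have h1 := step i1 hi1 j
  have h2 := h (i1 + j) (by omega) (T - N (i1 + j)) (by
    have := hNs (i1 + j)
    omega)
  have h3 : (pre W (i1 + j)).length + (T - N (i1 + j)) = T := by
    show N (i1 + j) + (T - N (i1 + j)) = T
    omega
  rw [h3] at h2
  have h4 : (N (i1 + j) : ℝ) ≤ T := by exact_mod_cast hj1
  have h5 : 0 < (1 / 2 : ℝ) ^ (i1 + j) := by positivity
  have h6 : (1 / 2 : ℝ) ^ (i1 + j) ≤ (1 / 2) ^ i1 :=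
    pow_le_pow_of_le_one (by norm_num) (by norm_num) (by omega)
  have h7 : (0 : ℝ) ≤ T := Nat.cast_nonneg T
  have h8 : f (pre W (i1 + j)).length = f (N (i1 + j)) := rfl
  rw [h8] at h2
  have h9 : (2 * (1 / 2) ^ i1 - 2 * (1 / 2) ^ (i1 + j)) * (N (i1 + j) : ℝ)
      ≤ 2 * (1 / 2) ^ i1 * (T : ℝ) := by
    have h10 : (0 : ℝ) ≤ N (i1 + j) := Nat.cast_nonneg _
    have h11 : 0 ≤ (1 / 2 : ℝ) ^ i1 := by positivity
    nlinarith
  have h12 : (1 / 2 : ℝ) ^ (i1 + j) * T ≤ (1 / 2) ^ i1 * T := mul_le_mul_of_nonneg_right h6 h7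
  have h13 : 3 * (1 / 2 : ℝ) ^ i1 * T ≤ η / 2 * T := mul_le_mul_of_nonneg_right hi2 h7
  linarith

theorem concat_Fr {W : ℕ → List ℕ} (hW : ∀ n, W n ≠ []) {pu pl : ℕ → ℝ}
    (hpu : ∀ k ≤ m, pu k ≤ 1) (hpl : ∀ k ≤ m, 0 ≤ pl k)
    (h : ∀ᶠ i in atTop, GW m pu pl ((1 / 2) ^ i) (pre W i).length (W i)) :
    Fr m pu pl (dig W) := by
  obtain ⟨i0, hi0⟩ := eventually_atTop.1 h
  have hsmall : ∀ δ > 0, ∀ᶠ i : ℕ in atTop, 2 * (1 / 2 : ℝ) ^ i ≤ δ := by
    intro δ hδ
    have h1 : Tendsto (fun i : ℕ => 2 * (1 / 2 : ℝ) ^ i) atTop (𝓝 (2 * 0)) :=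
      (tendsto_pow_atTop_nhds_zero_of_lt_one (by norm_num) (by norm_num)).const_mul 2
    rw [mul_zero] at h1
    filter_upwards [h1.eventually (gt_mem_nhds hδ)] with i hi using hi.le
  intro k hk
  constructor
  · apply ls_eq (prop_nn _ k) (prop_le _ k)
    · intro δ hδ
      have h1 := drift hW (f := fun T => (cnt (dig W) k T : ℝ) - pu k * T) (i0 := i0) (by
        intro i hi t ht
        have h2 := (hi0 i hi).up k hk t ht
        show (cnt (dig W) k _ : ℝ) - pu k * _ ≤ _ - pu k * _ + _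
        rw [cnt_add hW k i ht]
        push_cast
        nlinarith) δ hδ
      filter_upwards [h1, eventually_gt_atTop 0] with T hT hT0
      have hT' : (0 : ℝ) < T := by exact_mod_cast hT0
      rw [prop_eq, div_le_iff₀ hT']
      linarith
    · intro δ hδ
      rw [frequently_atTop]
      intro a
      obtain ⟨i, h1, h2⟩ := ((hsmall δ hδ).and (eventually_ge_atTop (max i0 a))).exists
      have h3 : i0 ≤ i := (le_max_left _ _).trans h2
      have h4 : a ≤ i := (le_max_right _ _).trans h2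
      obtain ⟨t, ht1, ht2, ht3, ht4⟩ := (hi0 i h3).hu k hk
      have h5 := pre_len_ge hW i
      refine ⟨(pre W i).length + t, by omega, ?_⟩
      have ht : (0 : ℝ) < t := by exact_mod_cast ht2
      have hn : (0 : ℝ) ≤ ((pre W i).length : ℝ) := Nat.cast_nonneg _
      rw [prop_eq, cnt_add hW k i ht1, le_div_iff₀ (by push_cast; linarith)]
      push_cast
      have h6 : (0 : ℝ) ≤ cnt (dig W) k (pre W i).length := Nat.cast_nonneg _
      have h7 := hpu k hk
      have h8 : 0 < (1 / 2 : ℝ) ^ i := by positivity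
      have h9 : (pu k - δ) * (((pre W i).length : ℝ) + t)
          ≤ (pu k - 2 * (1 / 2) ^ i) * (((pre W i).length : ℝ) + t) :=
        mul_le_mul_of_nonneg_right (by linarith) (by linarith)
      have h10 : (pu k - 2 * (1 / 2) ^ i) * ((pre W i).length : ℝ) ≤ 1 * ((pre W i).length : ℝ) :=
        mul_le_mul_of_nonneg_right (by linarith) hn
      nlinarith
  · apply li_eq (prop_nn _ k) (prop_le _ k)
    · intro δ hδ
      have h1 := drift hW (f := fun T => pl k * T - (cnt (dig W) k T : ℝ)) (i0 := i0) (by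
        intro i hi t ht
        have h2 := (hi0 i hi).lo k hk t ht
        show pl k * _ - (cnt (dig W) k _ : ℝ) ≤ pl k * _ - _ + _
        rw [cnt_add hW k i ht]
        push_cast
        nlinarith) δ hδ
      filter_upwards [h1, eventually_gt_atTop 0] with T hT hT0
      have hT' : (0 : ℝ) < T := by exact_mod_cast hT0
      rw [prop_eq, le_div_iff₀ hT']
      linarith
    · intro δ hδ
      rw [frequently_atTop]
      intro a
      obtain ⟨i, h1, h2⟩ := ((hsmall δ hδ).and (eventually_ge_atTop (max i0 a))).exists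
      have h3 : i0 ≤ i := (le_max_left _ _).trans h2
      have h4 : a ≤ i := (le_max_right _ _).trans h2
      obtain ⟨t, ht1, ht2, ht3, ht4⟩ := (hi0 i h3).hl k hk
      have h5 := pre_len_ge hW i
      refine ⟨(pre W i).length + t, by omega, ?_⟩
      have ht : (0 : ℝ) < t := by exact_mod_cast ht2
      have hn : (0 : ℝ) ≤ ((pre W i).length : ℝ) := Nat.cast_nonneg _
      rw [prop_eq, cnt_add hW k i ht1, div_le_iff₀ (by push_cast; linarith)]
      push_cast
      have h6 : (cnt (dig W) k (pre W i).length : ℝ) ≤ ((pre W i).length : ℝ) := by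
        exact_mod_cast cnt_le _ _ _
      have h7 := hpl k hk
      have h8 : 0 < (1 / 2 : ℝ) ^ i := by positivity
      have h9 : (pl k + 2 * (1 / 2) ^ i) * (((pre W i).length : ℝ) + t)
          ≤ (pl k + δ) * (((pre W i).length : ℝ) + t) :=
        mul_le_mul_of_nonneg_right (by linarith) (by linarith)
      have h10 : 0 ≤ (pl k + 2 * (1 / 2) ^ i) * ((pre W i).length : ℝ) := by positivity
      nlinarith

end

end Pool.Agent.V11111.BF
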