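import Pool.Agent.V11111.BE.Tiles

open MeasureTheory Set Filter Topology
open scoped ENNReal

namespace Pool.Agent.V11111.BF

open Pool.Agent.V11111.BE

noncomputable section

variable {β c : ℝ} {m : ℕ}

/-- One stage of the random coding. -/
structure Stg (β c : ℝ) (m : ℕ) where
  A : Type
  cA : Countable A
  a0 : A
  w : A → List ℕ
  s : A → Option Bool
  dig_le : ∀ a, ∀ k ∈ w a, k ≤ m
  ne : ∀ a, w a ≠ []
  dis : ∀ a a', a ≠ a' → Disjoint (tile β c (w a)) (tile β c (w a')) ∨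
    ((w a).head? ≠ (w a').head? ∧ ∃ b, s a = some b ∧ s a' = some (!b))
  tot : ∑' a, pr β (w a) (s a) = 1

namespace Stg

variable (S : Stg β c m)

/-- rectangle of a branch -/
def rect (a : S.A) : Set (ℝ × ℝ) := tile β c (S.w a) ×ˢ jint (S.s a)

lemma rect_meas (a : S.A) : MeasurableSet (S.rect a) := by
  unfold rect
  apply MeasurableSet.prod (measurable_g1 _ _ measurableSet_Icc)
  rw [jint_eq]
  exact measurable_g2 _ measurableSet_Ico

lemma rect_disj {a a' : S.A} (h : a ≠ a') : Disjoint (S.rect a) (S.rect a') := by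
  rcases S.dis a a' h with h1 | ⟨-, b, h1, h2⟩
  · exact Set.disjoint_prod.2 (Or.inl h1)
  · apply Set.disjoint_prod.2
    right
    rw [h1, h2]
    exact jint_disj b

/-- all rectangles -/
def all : Set (ℝ × ℝ) := ⋃ a, S.rect a

open Classical in
/-- the branch index -/
def X (ω : ℝ × ℝ) : S.A := if h : ∃ a, ω ∈ S.rect a then h.choose else S.a0

/-- the branch map -/
def R (ω : ℝ × ℝ) : ℝ × ℝ := Prod.map (g1 β (S.w (S.X ω))) (g2 (S.s (S.X ω))) ω

lemma X_eq {ω : ℝ × ℝ} {a : S.A} (h : ω ∈ S.rect a) : S.X ω = a := by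
  have h1 : ∃ a, ω ∈ S.rect a := ⟨a, h⟩
  have h2 : S.X ω = h1.choose := by
    unfold X; rw [dif_pos h1]
  rw [h2]
  by_contra hne
  exact Set.disjoint_left.1 (S.rect_disj hne) h1.choose_spec h

lemma mem_rect {ω : ℝ × ℝ} (h : ω ∈ S.all) : ω ∈ S.rect (S.X ω) := by
  obtain ⟨a, ha⟩ := mem_iUnion.1 h
  rw [S.X_eq ha]
  exact ha

lemma all_meas : MeasurableSet S.all := by
  have := S.cA
  exact MeasurableSet.iUnion S.rect_meas

lemma X_pre (a : S.A) : S.X ⁻¹' {a} ∩ S.all = S.rect a := by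
  ext ω
  constructor
  · rintro ⟨h1, h2⟩
    have h3 : S.X ω = a := h1
    rw [← h3]
    exact S.mem_rect h2
  · intro h
    exact ⟨S.X_eq h, mem_iUnion.2 ⟨a, h⟩⟩

lemma X_meas_pre (a : S.A) : MeasurableSet (S.X ⁻¹' {a}) := by
  have h1 : S.X ⁻¹' {a} = S.rect a ∪ (S.X ⁻¹' {a} ∩ (S.all)ᶜ) := by
    rw [← S.X_pre a, inter_union_compl]
  rw [h1]
  apply (S.rect_meas a).union
  by_cases h : a = S.a0
  · have h2 : S.X ⁻¹' {a} ∩ (S.all)ᶜ = (S.all)ᶜ := by
      apply inter_eq_right.2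
      intro ω hω
      have h3 : ¬ ∃ a, ω ∈ S.rect a := fun ⟨a, ha⟩ => hω (mem_iUnion.2 ⟨a, ha⟩)
      show S.X ω = a
      unfold X; rw [dif_neg h3, h]
    rw [h2]
    exact S.all_meas.compl
  · have h2 : S.X ⁻¹' {a} ∩ (S.all)ᶜ = ∅ := by
      rw [eq_empty_iff_forall_notMem]
      rintro ω ⟨h4, hω⟩
      have h3 : ¬ ∃ a, ω ∈ S.rect a := fun ⟨a, ha⟩ => hω (mem_iUnion.2 ⟨a, ha⟩)
      have h5 : S.X ω = a := h4
      apply h
      rw [← h5]
      unfold X; rw [dif_neg h3]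
    rw [h2]
    exact MeasurableSet.empty

lemma rect_P (hβ : 0 < β) (hc0 : 0 < c) (hc : β * c = c + m) (a : S.A) {B : Set (ℝ × ℝ)}
    (hB : MeasurableSet B) :
    PP c (S.rect a ∩ (Prod.map (g1 β (S.w a)) (g2 (S.s a))) ⁻¹' B)
      = pr β (S.w a) (S.s a) * PP c B :=
  branch hβ hc0 hc (S.dig_le a) (S.s a) hB

lemma PP_prob (hc0 : 0 < c) : IsProbabilityMeasure (PP c) := by
  have := mu1_prob hc0
  unfold PP
  infer_instance

lemma all_P (hβ : 0 < β) (hc0 : 0 < c) (hc : β * c = c + m) : PP c (S.all)ᶜ = 0 := by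
  have := S.cA
  have := PP_prob hc0
  have h1 : PP c S.all = 1 := by
    unfold all
    rw [measure_iUnion (fun a a' h => S.rect_disj h) S.rect_meas, ← S.tot]
    apply tsum_congr
    intro a
    have h2 := S.rect_P hβ hc0 hc a MeasurableSet.univ
    rw [preimage_univ, inter_univ, measure_univ, mul_one] at h2
    exact h2
  rw [measure_compl S.all_meas (measure_ne_top _ _), h1, measure_univ, tsub_self]

lemma key (hβ : 0 < β) (hc0 : 0 < c) (hc : β * c = c + m) (a : S.A) (B : Set (ℝ × ℝ))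
    (hB : MeasurableSet B) :
    PP c (S.X ⁻¹' {a} ∩ S.R ⁻¹' B) = pr β (S.w a) (S.s a) * PP c B := by
  rw [← S.rect_P hβ hc0 hc a hB]
  have h0 := S.all_P hβ hc0 hc
  have h1 : PP c (S.X ⁻¹' {a} ∩ S.R ⁻¹' B)
      = PP c ((S.X ⁻¹' {a} ∩ S.R ⁻¹' B) ∩ S.all) := by
    rw [measure_inter_conull' (measure_mono_null (fun ω h => h.2) h0)]
  rw [h1]
  congr 1
  ext ω
  constructor
  · rintro ⟨⟨h2, h3⟩, h4⟩
    have h5 : S.X ω = a := h2
    have h6 : ω ∈ S.rect a := by rw [← S.X_pre a]; exact ⟨h2, h4⟩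
    refine ⟨h6, ?_⟩
    have h7 : S.R ω ∈ B := h3
    unfold R at h7
    rw [h5] at h7
    exact h7
  · rintro ⟨h2, h3⟩
    have h5 := S.X_eq h2
    refine ⟨⟨h5, ?_⟩, mem_iUnion.2 ⟨a, h2⟩⟩
    show S.R ω ∈ B
    unfold R
    rw [h5]
    exact h3


instance instCA : Countable S.A := S.cA

instance instMA : MeasurableSpace S.A := ⊤

instance instDA : DiscreteMeasurableSpace S.A := ⟨fun _ => MeasurableSpace.measurableSet_top⟩

lemma X_meas : Measurable S.X := measurable_to_countable' S.X_meas_pre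

lemma R_meas : Measurable S.R := by
  have h1 : Measurable (fun p : S.A × (ℝ × ℝ) =>
      Prod.map (g1 β (S.w p.1)) (g2 (S.s p.1)) p.2) := by
    apply measurable_from_prod_countable_right
    intro a
    exact (measurable_g1 β (S.w a)).prodMap (measurable_g2 (S.s a))
  exact h1.comp (S.X_meas.prodMk measurable_id)

/-- independence of the branch and the next point -/
lemma indep (hβ : 0 < β) (hc0 : 0 < c) (hc : β * c = c + m) (Q : Set S.A) {B : Set (ℝ × ℝ)}
    (hB : MeasurableSet B) : PP c (S.X ⁻¹' Q ∩ S.R ⁻¹' B) = PP c (S.X ⁻¹' Q) * PP c B := by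
  have := PP_prob hc0
  exact key_set S.X_meas S.R_meas (S.key hβ hc0 hc) Q hB

/-- probability of a set of branches -/
lemma P_set (hβ : 0 < β) (hc0 : 0 < c) (hc : β * c = c + m) (Q : Set S.A) :
    PP c (S.X ⁻¹' Q) = ∑' a : Q, pr β (S.w a) (S.s a) := by
  have := PP_prob hc0
  have h2 : S.X ⁻¹' Q = ⋃ a : Q, (S.X ⁻¹' {(a : S.A)}) := by
    ext ω
    simp only [mem_preimage, mem_iUnion, mem_singleton_iff]
    constructor
    · intro h3
      exact ⟨⟨S.X ω, h3⟩, rfl⟩
    · rintro ⟨a, h3⟩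
      exact h3 ▸ a.2
  rw [h2, measure_iUnion]
  · apply tsum_congr
    intro a
    have h := S.key hβ hc0 hc a univ MeasurableSet.univ
    rwa [preimage_univ, inter_univ, measure_univ, mul_one] at h
  · intro a b hab
    refine Set.disjoint_left.2 fun ω h3 h4 => hab ?_
    have h5 : S.X ω = a := h3
    have h6 : S.X ω = b := h4
    exact Subtype.ext (h5.symm.trans h6)
  · intro a
    exact S.X_meas_pre a

end Stg

end

end Pool.Agent.V11111.BF
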