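import Pool.Agent.V11111.BF.Seq

open MeasureTheory Set Filter Topology
open scoped ENNReal NNReal

namespace Pool.Agent.V11111.BF

open Pool.Agent.V11111.BE

noncomputable section

variable {β c : ℝ} {m : ℕ}

lemma tile_closed (hβ : 0 < β) (w : List ℕ) : IsClosed (tile β c w) := by
  rw [tile_eq hβ]; exact isClosed_Icc

lemma tile_meas (hβ : 0 < β) (w : List ℕ) : MeasurableSet (tile β c w) :=
  (tile_closed hβ w).measurableSet

lemma vol_tile (hβ : 0 < β) (w : List ℕ) :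
    volume (tile β c w) = ENNReal.ofReal (c / β ^ w.length) := by
  rw [tile_eq hβ, Real.volume_Icc]
  congr 1
  unfold hi lo
  ring

lemma tile_ball (hβ : 0 < β) {w : List ℕ} {x : ℝ} (hx : x ∈ tile β c w) :
    tile β c w ⊆ Metric.closedBall x (c / β ^ w.length) := by
  intro y hy
  rw [tile_eq hβ] at hx hy
  rw [Metric.mem_closedBall, Real.dist_eq, abs_le]
  have h : hi β c w = lo β w + c / β ^ w.length := rfl
  rw [h] at hx hy
  constructor
  · linarith [hx.2, hy.1]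
  · linarith [hx.1, hy.2]

lemma small_tile (hβ : 1 < β) {ρ : ℝ} (hρ : 0 < ρ) :
    ∃ N0 : ℕ, ∀ N, N0 ≤ N → c / β ^ N < ρ := by
  have h5 : Tendsto (fun k : ℕ => c / β ^ k) atTop (𝓝 0) :=
    tendsto_const_nhds.div_atTop (tendsto_pow_atTop_atTop_of_one_lt hβ)
  exact eventually_atTop.1 (h5.eventually (gt_mem_nhds hρ))

/-- Vitali covering by tiles -/
lemma vit (hβ : 1 < β) (hc0 : 0 < c) {U S : Set ℝ} (hU : IsOpen U) (hS : S ⊆ U)
    (Q : List ℕ → Prop) (h : ∀ x ∈ S, ∀ N0 : ℕ, ∃ w, Q w ∧ N0 ≤ w.length ∧ x ∈ tile β c w) :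
    ∃ T : Set (List ℕ), (∀ w ∈ T, Q w ∧ tile β c w ⊆ U) ∧
      (∀ w ∈ T, ∀ w' ∈ T, w ≠ w' → Disjoint (tile β c w) (tile β c w')) ∧
      volume (S \ ⋃ w ∈ T, tile β c w) = 0 := by
  have hβ0 : 0 < β := by linarith
  obtain ⟨u, hu1, -, hu3, hu4⟩ := Vitali.exists_disjoint_covering_ae (volume : Measure ℝ) S
    {a : ℝ × List ℕ | a.1 ∈ S ∧ Q a.2 ∧ a.1 ∈ tile β c a.2 ∧ tile β c a.2 ⊆ U} (6 : ℝ≥0)
    (fun a => c / β ^ a.2.length) (fun a => a.1) (fun a => tile β c a.2)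
    (fun a ha => tile_ball hβ0 ha.2.2.1) (by
      intro a ha
      rw [Real.volume_closedBall, vol_tile hβ0,
        show 2 * (3 * (c / β ^ a.2.length)) = 6 * (c / β ^ a.2.length) by ring,
        ENNReal.ofReal_mul (by norm_num)]
      apply le_of_eq
      congr 1
      norm_num) (by
      intro a ha
      show (interior (tile β c a.2)).Nonempty
      rw [tile_eq hβ0, interior_Icc]
      exact nonempty_Ioo.2 (lo_lt_hi hβ0 hc0 _)) (fun a ha => tile_closed hβ0 _) (by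
      intro x hx ε hε
      obtain ⟨ρ, hρ, hball⟩ := Metric.isOpen_iff.1 hU x (hS hx)
      obtain ⟨N0, hN0⟩ := small_tile (c := c) hβ (lt_min hε hρ)
      obtain ⟨w, hw1, hw2, hw3⟩ := h x hx N0
      have h1 := hN0 _ hw2
      refine ⟨(x, w), ⟨hx, hw1, hw3, ?_⟩, (h1.trans_le (min_le_left _ _)).le, rfl⟩
      refine (tile_ball hβ0 hw3).trans (subset_trans ?_ hball)
      exact Metric.closedBall_subset_ball (h1.trans_le (min_le_right _ _)))
  refine ⟨Prod.snd '' u, ?_, ?_, ?_⟩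
  · rintro w ⟨a, ha, rfl⟩
    exact ⟨(hu1 ha).2.1, (hu1 ha).2.2.2⟩
  · rintro w ⟨a, ha, rfl⟩ w' ⟨a', ha', rfl⟩ hne
    exact hu3 ha ha' fun e => hne (by rw [e])
  · have e : (⋃ w ∈ Prod.snd '' u, tile β c w) = ⋃ a ∈ u, tile β c a.2 := by
      rw [biUnion_image]
    rw [e]
    exact hu4

lemma vol_T (hβ : 0 < β) (T : Set (List ℕ))
    (hd : ∀ w ∈ T, ∀ w' ∈ T, w ≠ w' → Disjoint (tile β c w) (tile β c w')) :
    ∑' w : T, volume (tile β c (w : List ℕ)) = volume (⋃ w ∈ T, tile β c w) := by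
  rw [measure_biUnion T.to_countable]
  · intro w hw w' hw' hne
    exact hd w hw w' hw' hne
  · intro w _
    exact tile_meas hβ w

/-- long first words of expansions of a class -/
def Wp (U : Set ℝ) (Cl : ℝ → Set (ℕ → ℕ)) (L : ℕ) (w : List ℕ) : Prop :=
  ∃ x ∈ U, ∃ ε ∈ Cl x, ∃ N, L ≤ N ∧ w = pf ε N

/-- tiling of `U`, mostly by good words -/
lemma stageU (hβ : 1 < β) (hc0 : 0 < c) (hc : β * c = c + m) {U : Set ℝ} (hU : IsOpen U)
    (hUf : volume U ≠ ⊤) (Cl : ℝ → Set (ℕ → ℕ)) {pu pl : ℕ → ℝ}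
    (hCl : ∀ x, ∀ ε ∈ Cl x, (∀ i, ε i ≤ m) ∧
      HasSum (fun i => (ε i : ℝ) / β ^ (i + 1)) x ∧ Fr m pu pl ε)
    (hne : volume (U \ {x | (Cl x).Nonempty}) = 0) {δ : ℝ} (hδ : 0 < δ) {η : ℝ≥0∞} (hη : η ≠ 0) :
    ∃ K : ℕ, ∀ n L : ℕ, ∃ T : Set (List ℕ), (∀ w ∈ T, Wp U Cl L w ∧ tile β c w ⊆ U) ∧
      (∀ w ∈ T, ∀ w' ∈ T, w ≠ w' → Disjoint (tile β c w) (tile β c w')) ∧
      ∑' w : T, volume (tile β c (w : List ℕ)) = volume U ∧
      ((K : ℝ) ≤ δ * n → ∑' w : {w | w ∈ T ∧ ¬ GW m pu pl δ n w},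
        volume (tile β c (w : List ℕ)) ≤ η) := by
  have hβ0 : 0 < β := by linarith
  set η2 := η / 2 with hη2
  have hη20 : η2 ≠ 0 := by
    rw [hη2]; exact (ENNReal.half_pos hη).ne'
  -- the accurate points
  set SK : ℕ → Set ℝ := fun K => {x | x ∈ U ∧ ∃ ε ∈ Cl x, Acc m pu pl δ K ε} with hSK
  have hmono : Monotone SK := by
    rintro K K' h x ⟨h1, ε, h2, h3⟩
    exact ⟨h1, ε, h2, h3.mono h⟩
  have hUS : volume U ≤ ⨆ K, volume (SK K) := by
    rw [← hmono.measure_iUnion]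
    have h1 : U ⊆ (⋃ K, SK K) ∪ (U \ {x | (Cl x).Nonempty}) := by
      intro x hx
      by_cases h : (Cl x).Nonempty
      · left
        obtain ⟨ε, hε⟩ := h
        obtain ⟨K, hK⟩ := exists_acc (hCl x ε hε).2.2 hδ
        exact mem_iUnion.2 ⟨K, hx, ε, hε, hK⟩
      · right
        exact ⟨hx, h⟩
    refine (measure_mono h1).trans ((measure_union_le _ _).trans ?_)
    rw [hne, add_zero]
  obtain ⟨K, hK⟩ : ∃ K, volume U ≤ volume (SK K) + η2 := by
    by_cases h0 : volume U = 0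
    · exact ⟨0, by rw [h0]; exact bot_le⟩
    · have h1 : volume U - η2 < ⨆ K, volume (SK K) :=
        (ENNReal.sub_lt_self hUf h0 hη20).trans_le hUS
      obtain ⟨K, hK⟩ := lt_iSup_iff.1 h1
      exact ⟨K, tsub_le_iff_right.1 hK.le⟩
  refine ⟨K, fun n L => ?_⟩
  -- filling an open set by arbitrary words
  have fill : ∀ V : Set ℝ, IsOpen V → V ⊆ U → ∃ T : Set (List ℕ),
      (∀ w ∈ T, Wp U Cl L w ∧ tile β c w ⊆ V) ∧
      (∀ w ∈ T, ∀ w' ∈ T, w ≠ w' → Disjoint (tile β c w) (tile β c w')) ∧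
      volume (V \ ⋃ w ∈ T, tile β c w) = 0 := by
    intro V hV hVU
    obtain ⟨T, h1, h2, h3⟩ := vit (S := {x | x ∈ V ∧ (Cl x).Nonempty}) hβ hc0 hV
      (fun x hx => hx.1) (Wp U Cl L) (by
        rintro x ⟨hx, ε, hε⟩ N0
        refine ⟨pf ε (max N0 L), ⟨x, hVU hx, ε, hε, _, le_max_right _ _, rfl⟩, ?_, ?_⟩
        · rw [pf_length]; exact le_max_left _ _
        · exact pf_tile hβ hc (hCl x ε hε).1 (hCl x ε hε).2.1 _)
    refine ⟨T, h1, h2, ?_⟩
    have h4 : (V \ ⋃ w ∈ T, tile β c w) ⊆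
        ({x | x ∈ V ∧ (Cl x).Nonempty} \ ⋃ w ∈ T, tile β c w) ∪ (U \ {x | (Cl x).Nonempty}) := by
      rintro x ⟨hx1, hx2⟩
      by_cases h : (Cl x).Nonempty
      · exact Or.inl ⟨⟨hx1, h⟩, hx2⟩
      · exact Or.inr ⟨hVU hx1, h⟩
    exact measure_mono_null h4 (measure_union_null h3 hne)
  have volT : ∀ T : Set (List ℕ), (∀ w ∈ T, tile β c w ⊆ U) →
      (∀ w ∈ T, ∀ w' ∈ T, w ≠ w' → Disjoint (tile β c w) (tile β c w')) →
      volume (U \ ⋃ w ∈ T, tile β c w) = 0 →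
      ∑' w : T, volume (tile β c (w : List ℕ)) = volume U := by
    intro T h1 h2 h3
    rw [vol_T hβ0 T h2]
    apply le_antisymm
    · exact measure_mono (iUnion₂_subset h1)
    · have h4 : U ⊆ (⋃ w ∈ T, tile β c w) ∪ (U \ ⋃ w ∈ T, tile β c w) := by
        rw [union_diff_self]
        exact subset_union_right
      refine (measure_mono h4).trans ((measure_union_le _ _).trans ?_)
      rw [h3, add_zero]
  by_cases hn : (K : ℝ) ≤ δ * n
  · -- good tiles
    obtain ⟨T1, t1, t2, t3⟩ := vit (S := SK K) hβ hc0 hU (fun x hx => hx.1)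
      (fun w => Wp U Cl L w ∧ GW m pu pl δ n w) (by
        rintro x ⟨hx, ε, hε, hacc⟩ N0
        obtain ⟨N1, hN1⟩ := exists_GW (hCl x ε hε).2.2 hδ hacc hn
        refine ⟨pf ε (max (max N0 L) N1), ⟨⟨x, hx, ε, hε, _, ?_, rfl⟩, hN1 _ (le_max_right _ _)⟩,
          ?_, ?_⟩
        · exact (le_max_right _ _).trans (le_max_left _ _)
        · rw [pf_length]; exact (le_max_left _ _).trans (le_max_left _ _)
        · exact pf_tile hβ hc (hCl x ε hε).1 (hCl x ε hε).2.1 _)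
    have hsum : volume U ≤ (⨆ s : Finset T1, ∑ w ∈ s, volume (tile β c (w : List ℕ))) + η2 := by
      rw [← ENNReal.tsum_eq_iSup_sum, vol_T hβ0 T1 t2]
      refine hK.trans (add_le_add_left ?_ _)
      have h4 : SK K ⊆ (⋃ w ∈ T1, tile β c w) ∪ (SK K \ ⋃ w ∈ T1, tile β c w) := by
        rw [union_diff_self]
        exact subset_union_right
      refine (measure_mono h4).trans ((measure_union_le _ _).trans ?_)
      rw [t3, add_zero]
    obtain ⟨F, hF⟩ : ∃ F : Finset T1,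
        volume U ≤ ∑ w ∈ F, volume (tile β c (w : List ℕ)) + η := by
      by_cases h0 : volume U - η2 = 0
      · refine ⟨∅, ?_⟩
        rw [Finset.sum_empty, zero_add]
        refine (tsub_eq_zero_iff_le.1 h0).trans ?_
        rw [hη2]
        exact ENNReal.half_le_self
      · have h1 : volume U - η2 - η2 < ⨆ s : Finset T1, ∑ w ∈ s, volume (tile β c (w : List ℕ)) :=
          (ENNReal.sub_lt_self (ne_top_of_le_ne_top hUf tsub_le_self) h0 hη20).trans_le
            (tsub_le_iff_right.2 hsum)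
        obtain ⟨F, hF⟩ := lt_iSup_iff.1 h1
        refine ⟨F, ?_⟩
        have h2 := tsub_le_iff_right.1 hF.le
        have h3 := tsub_le_iff_right.1 h2
        rw [add_assoc, hη2, ENNReal.add_halves] at h3
        exact h3
    set F' : Set (List ℕ) := Subtype.val '' (F : Set T1) with hF'
    have hF'T : F' ⊆ T1 := by
      rintro w ⟨a, -, rfl⟩
      exact a.2
    have hF'fin : F'.Finite := F.finite_toSet.image _
    have hclosed : IsClosed (⋃ w ∈ F', tile β c w) :=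
      hF'fin.isClosed_biUnion fun w _ => tile_closed hβ0 w
    set V : Set ℝ := U \ ⋃ w ∈ F', tile β c w with hV
    have hVo : IsOpen V := hU.sdiff hclosed
    obtain ⟨T2, s1, s2, s3⟩ := fill V hVo diff_subset
    have hvolF : ∑ w ∈ F, volume (tile β c (w : List ℕ)) = volume (⋃ w ∈ F', tile β c w) := by
      rw [measure_biUnion hF'fin.countable]
      · rw [hF', tsum_image (fun w => volume (tile β c w)) Subtype.val_injective.injOn]
        rw [← Finset.tsum_subtype]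
        rfl
      · intro w hw w' hw' hne'
        exact t2 w (hF'T hw) w' (hF'T hw') hne'
      · intro w _
        exact tile_meas hβ0 w
    have hVvol : volume V ≤ η := by
      rw [hV, measure_diff _ hclosed.measurableSet.nullMeasurableSet]
      · rw [tsub_le_iff_left, ← hvolF]
        exact hF
      · refine ne_top_of_le_ne_top hUf (measure_mono ?_)
        exact iUnion₂_subset fun w hw => (t1 w (hF'T hw)).2
      · exact iUnion₂_subset fun w hw => (t1 w (hF'T hw)).2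
    have hdisj : ∀ w ∈ F' ∪ T2, ∀ w' ∈ F' ∪ T2, w ≠ w' →
        Disjoint (tile β c w) (tile β c w') := by
      have hx : ∀ w ∈ F', ∀ w' ∈ T2, Disjoint (tile β c w) (tile β c w') := by
        intro w hw w' hw'
        rw [Set.disjoint_left]
        intro x h1 h2
        have h3 := (s1 w' hw').2 h2
        exact h3.2 (mem_iUnion₂.2 ⟨w, hw, h1⟩)
      rintro w (hw | hw) w' (hw' | hw') hne'
      · exact t2 w (hF'T hw) w' (hF'T hw') hne'
      · exact hx w hw w' hw'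
      · exact (hx w' hw' w hw).symm
      · exact s2 w hw w' hw' hne'
    have hsub : ∀ w ∈ F' ∪ T2, tile β c w ⊆ U := by
      rintro w (hw | hw)
      · exact (t1 w (hF'T hw)).2
      · exact (s1 w hw).2.trans diff_subset
    refine ⟨F' ∪ T2, ?_, hdisj, ?_, ?_⟩
    · rintro w (hw | hw)
      · exact ⟨(t1 w (hF'T hw)).1.1, (t1 w (hF'T hw)).2⟩
      · exact ⟨(s1 w hw).1, (s1 w hw).2.trans diff_subset⟩
    · apply volT _ hsub hdisj
      refine measure_mono_null ?_ s3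
      rintro x ⟨hx1, hx2⟩
      rw [biUnion_union] at hx2
      exact ⟨⟨hx1, fun h => hx2 (Or.inl h)⟩, fun h => hx2 (Or.inr h)⟩
    · intro _
      rw [vol_T hβ0 {w | w ∈ F' ∪ T2 ∧ ¬ GW m pu pl δ n w}
        (fun w hw w' hw' => hdisj w hw.1 w' hw'.1)]
      refine (measure_mono ?_).trans hVvol
      refine iUnion₂_subset ?_
      rintro w ⟨hw | hw, hw2⟩
      · exact absurd (t1 w (hF'T hw)).1.2 hw2
      · exact (s1 w hw).2
  · obtain ⟨T, h1, h2, h3⟩ := fill U hU subset_rfl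
    exact ⟨T, h1, h2, volT T (fun w hw => (h1 w hw).2) h2 h3, fun h => absurd h hn⟩

end

end Pool.Agent.V11111.BF
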